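import Pool.Agent.Lib.MP_b35d54_lc_Db.Defs

/-!
# Determinant sums: the lemma on alternating functions of partial injections
-/

namespace Pool.Agent.MP_b35d54_lc.Db

open Equiv Equiv.Perm Finset

noncomputable section

private theorem Alt_sum_congr {K : Type*} [Field K] {j : ℕ}
    (h : Finset (Fin (j + 1)) → Perm (Fin (j + 1)) → K)
    (hloc : ∀ A γ γ', (∀ i ∈ A, γ i = γ' i) → h A γ = h A γ')
    (A : Finset (Fin (j + 1))) (γ γ' : Perm (Fin (j + 1))) (hγ : ∀ i ∈ A, γ i = γ' i) :
    ∑ A' ∈ A.powerset, h A' γ = ∑ A' ∈ A.powerset, h A' γ' := by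
  refine Finset.sum_congr rfl fun A' hA' => hloc A' γ γ' fun i hi => ?_
  exact hγ i (Finset.mem_powerset.1 hA' hi)

/-- two missing rows -/
private theorem Alt_two {K : Type*} [Field K] (h2 : (2 : K) ≠ 0) {j : ℕ}
    (h : Finset (Fin (j + 1)) → Perm (Fin (j + 1)) → K)
    (hloc : ∀ A γ γ', (∀ i ∈ A, γ i = γ' i) → h A γ = h A γ')
    (halt : ∀ A γ x y, x ∈ A → y ∈ A → x ≠ y → h A (γ * swap x y) = - h A γ)
    (A : Finset (Fin (j + 1))) (x y : Fin (j + 1)) (hx : x ∉ A) (hy : y ∉ A) (hxy : x ≠ y)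
    (hx0 : x ≠ 0) (hy0 : y ≠ 0)
    (ih1 : ∀ δ : Perm (Fin (j + 1)), δ 0 = 0 → ∑ A' ∈ (insert x A).powerset, h A' δ = 0)
    (ih2 : ∀ δ : Perm (Fin (j + 1)), δ 0 = 0 → ∑ A' ∈ (insert y A).powerset, h A' δ = 0)
    (ih3 : ∀ δ : Perm (Fin (j + 1)), δ 0 = 0 →
      ∑ A' ∈ (insert x (insert y A)).powerset, h A' δ = 0)
    (δ : Perm (Fin (j + 1))) (hδ : δ 0 = 0) : ∑ A' ∈ A.powerset, h A' δ = 0 := by
  have hxA : x ∉ insert y A := by
    rw [Finset.mem_insert]
    rintro (h1 | h1)
    · exact hxy h1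
    · exact hx h1
  have key : ∀ δ : Perm (Fin (j + 1)), δ 0 = 0 →
      ∑ A' ∈ A.powerset, h (insert x (insert y A')) δ = ∑ A' ∈ A.powerset, h A' δ := by
    intro δ hδ
    have e1 := ih1 δ hδ
    have e2 := ih2 δ hδ
    have e3 := ih3 δ hδ
    rw [Finset.sum_powerset_insert hxA, e2, Finset.sum_powerset_insert hy, zero_add] at e3
    rw [Finset.sum_powerset_insert hx] at e1
    linear_combination e3 - e1
  have hδ' : (δ * swap x y) 0 = 0 := by
    rw [Perm.mul_apply, swap_apply_of_ne_of_ne hx0.symm hy0.symm, hδ]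
  have k1 := key δ hδ
  have k2 := key (δ * swap x y) hδ'
  have k3 : ∑ A' ∈ A.powerset, h A' (δ * swap x y) = ∑ A' ∈ A.powerset, h A' δ := by
    refine Alt_sum_congr h hloc A _ _ fun i hi => ?_
    rw [Perm.mul_apply, swap_apply_of_ne_of_ne]
    · rintro rfl
      exact hx hi
    · rintro rfl
      exact hy hi
  have k4 : ∑ A' ∈ A.powerset, h (insert x (insert y A')) (δ * swap x y) =
      -∑ A' ∈ A.powerset, h (insert x (insert y A')) δ := by
    rw [← Finset.sum_neg_distrib]
    refine Finset.sum_congr rfl fun A' _ => halt _ δ x y (Finset.mem_insert_self _ _) ?_ hxy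
    exact Finset.mem_insert_of_mem (Finset.mem_insert_self _ _)
  have k5 : 2 * ∑ A' ∈ A.powerset, h A' δ = 0 := by
    rw [k1] at k4
    rw [k2, k3] at k4
    linear_combination k4
  exact (mul_eq_zero.1 k5).resolve_left h2

private theorem Alt_claim {K : Type*} [Field K] (h2 : (2 : K) ≠ 0) {j : ℕ}
    (h : Finset (Fin (j + 1)) → Perm (Fin (j + 1)) → K)
    (hloc : ∀ A γ γ', (∀ i ∈ A, γ i = γ' i) → h A γ = h A γ')
    (hzero : ∀ A γ i, i ∈ A → γ i = 0 → h A γ = 0)
    (halt : ∀ A γ x y, x ∈ A → y ∈ A → x ≠ y → h A (γ * swap x y) = - h A γ)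
    (hsum : ∀ γ, ∑ A ∈ ((univ : Finset (Fin (j + 1))).erase 0).powerset, h A γ = 0) (n : ℕ) :
    ∀ A ⊆ (univ : Finset (Fin (j + 1))).erase 0,
      ((univ : Finset (Fin (j + 1))).erase 0 \ A).card = n →
      ∀ γ : Perm (Fin (j + 1)), (∀ i ∈ A, γ i ≠ 0) → ∑ A' ∈ A.powerset, h A' γ = 0 := by
  induction n using Nat.strong_induction_on with
  | _ n ih =>
  intro A hA hn γ hγ
  have h0A : (0 : Fin (j + 1)) ∉ A := fun h0 => (Finset.mem_erase.1 (hA h0)).1 rfl
  have hz : γ (γ⁻¹ 0) = 0 := by simp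
  have hzA : γ⁻¹ 0 ∉ A := fun h1 => hγ _ h1 hz
  rcases Nat.lt_or_ge n 2 with hn2 | hn2
  · rcases Nat.lt_or_ge n 1 with hn1 | hn1
    · -- nothing is missing
      have h3 : (univ : Finset (Fin (j + 1))).erase 0 \ A = ∅ := by
        rw [← Finset.card_eq_zero]
        omega
      have h4 : A = (univ : Finset (Fin (j + 1))).erase 0 :=
        Finset.Subset.antisymm hA (Finset.sdiff_eq_empty_iff_subset.1 h3)
      rw [h4]
      exact hsum γ
    · -- one row is missing
      have hone : ((univ : Finset (Fin (j + 1))).erase 0 \ A).card = 1 := by omega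
      obtain ⟨x, hx⟩ := Finset.card_eq_one.1 hone
      have hxm : x ∈ (univ : Finset (Fin (j + 1))).erase 0 \ A := by
        rw [hx]
        exact Finset.mem_singleton_self x
      rw [Finset.mem_sdiff] at hxm
      have hU : insert x A = (univ : Finset (Fin (j + 1))).erase 0 := by
        ext i
        rw [Finset.mem_insert]
        constructor
        · rintro (h3 | h3)
          · rw [h3]
            exact hxm.1
          · exact hA h3
        · intro h3
          by_cases h4 : i ∈ A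
          · exact Or.inr h4
          · left
            have h5 : i ∈ (univ : Finset (Fin (j + 1))).erase 0 \ A :=
              Finset.mem_sdiff.2 ⟨h3, h4⟩
            rw [hx] at h5
            exact Finset.mem_singleton.1 h5
      have hx' : (γ * swap x (γ⁻¹ 0)) x = 0 := by
        rw [Perm.mul_apply, swap_apply_left, hz]
      have h3 := hsum (γ * swap x (γ⁻¹ 0))
      rw [← hU, Finset.sum_powerset_insert hxm.2] at h3
      have h4 : ∑ t ∈ A.powerset, h (insert x t) (γ * swap x (γ⁻¹ 0)) = 0 :=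
        Finset.sum_eq_zero fun t _ => hzero _ _ x (Finset.mem_insert_self x t) hx'
      rw [h4, add_zero] at h3
      rw [← h3]
      refine Alt_sum_congr h hloc A _ _ fun i hi => ?_
      rw [Perm.mul_apply, swap_apply_of_ne_of_ne]
      · rintro rfl
        exact hxm.2 hi
      · rintro rfl
        exact hzA hi
  · -- two rows are missing
    have hone : 1 < ((univ : Finset (Fin (j + 1))).erase 0 \ A).card := by omega
    obtain ⟨x, hx, y, hy, hxy⟩ := Finset.one_lt_card.1 hone
    rw [Finset.mem_sdiff] at hx hy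
    have hx0 : x ≠ 0 := (Finset.mem_erase.1 hx.1).1
    have hy0 : y ≠ 0 := (Finset.mem_erase.1 hy.1).1
    have hδ : (γ * swap 0 (γ⁻¹ 0)) 0 = 0 := by
      rw [Perm.mul_apply, swap_apply_left, hz]
    have h3 : ∑ A' ∈ A.powerset, h A' γ = ∑ A' ∈ A.powerset, h A' (γ * swap 0 (γ⁻¹ 0)) := by
      refine Alt_sum_congr h hloc A _ _ fun i hi => ?_
      rw [Perm.mul_apply, swap_apply_of_ne_of_ne]
      · rintro rfl
        exact h0A hi
      · rintro rfl
        exact hzA hi
    rw [h3]
    have hcard : ∀ z ∈ (univ : Finset (Fin (j + 1))).erase 0 \ A,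
        ((univ : Finset (Fin (j + 1))).erase 0 \ insert z A).card < n := by
      intro z hz
      rw [← hn]
      refine Finset.card_lt_card ?_
      rw [Finset.ssubset_iff_of_subset (Finset.sdiff_subset_sdiff (Finset.Subset.refl _)
        (Finset.subset_insert z A))]
      refine ⟨z, hz, fun h4 => ?_⟩
      exact (Finset.mem_sdiff.1 h4).2 (Finset.mem_insert_self z A)
    have hval : ∀ (B : Finset (Fin (j + 1))) (δ : Perm (Fin (j + 1))), δ 0 = 0 →
        B ⊆ (univ : Finset (Fin (j + 1))).erase 0 → ∀ i ∈ B, δ i ≠ 0 := by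
      intro B δ hδ hB i hi h4
      have h5 : i = 0 := δ.injective (h4.trans hδ.symm)
      exact (Finset.mem_erase.1 (hB hi)).1 h5
    have hsx : insert x A ⊆ (univ : Finset (Fin (j + 1))).erase 0 :=
      Finset.insert_subset hx.1 hA
    have hsy : insert y A ⊆ (univ : Finset (Fin (j + 1))).erase 0 :=
      Finset.insert_subset hy.1 hA
    have hsxy : insert x (insert y A) ⊆ (univ : Finset (Fin (j + 1))).erase 0 :=
      Finset.insert_subset hx.1 hsy
    refine Alt_two h2 h hloc halt A x y hx.2 hy.2 hxy hx0 hy0 ?_ ?_ ?_ _ hδ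
    · intro δ hδ
      exact ih _ (hcard x (Finset.mem_sdiff.2 hx)) _ hsx rfl δ (hval _ δ hδ hsx)
    · intro δ hδ
      exact ih _ (hcard y (Finset.mem_sdiff.2 hy)) _ hsy rfl δ (hval _ δ hδ hsy)
    · intro δ hδ
      refine ih _ (lt_of_le_of_lt (Finset.card_le_card (Finset.sdiff_subset_sdiff
        (Finset.Subset.refl _) (Finset.insert_subset_insert x (Finset.subset_insert y A))))
        (hcard x (Finset.mem_sdiff.2 hx))) _ hsxy rfl δ (hval _ δ hδ hsxy)

/-- For every set `A` of nonzero rows let `h A γ` depend on `γ` on `A` only, change its sign when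
two values on `A` are exchanged, and vanish when `γ` takes the value `0` on `A`.  If the sum over
all `A` vanishes for every permutation `γ`, then everything vanishes (characteristic not `2`).

Proof: `F A γ = ∑ A' ⊆ A, h A' γ`.  Claim: `F A γ = 0` if `A ∌ 0` and `γ` has no value `0` on `A`;
descending induction on `#A`.  `A = univ.erase 0` is `hsum`.  If exactly one nonzero row `x` is
missing, replace `γ` by `γ' = γ * swap x (γ⁻¹ 0)`, which agrees with `γ` on `A` and has the value
`0` at `x`: then `0 = F (insert x A) γ' = F A γ'` by `hzero`.  If `x ≠ y` are missing, replace `γ`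
by `γ * swap 0 (γ⁻¹ 0)` first (same values on `A`), so that `γ 0 = 0`; put
`γ' = γ * swap x y`.  For `γ` and for `γ'`: `F (A ∪ {x, y}) = F (A ∪ {x}) = F (A ∪ {y}) = 0`, hence
`∑ A' ⊆ A, h (A' ∪ {x, y}) = F A`; this sum changes its sign by `halt`, and `F A γ' = F A γ`, so
`2 * F A γ = 0`.  Finally `h A γ = 0` by induction on `A` (all proper subsets vanish), and by
`hzero` if `γ` has the value `0` on `A`. -/
theorem alt_zero {K : Type*} [Field K] (h2 : (2 : K) ≠ 0) {j : ℕ}
    (h : Finset (Fin (j + 1)) → Perm (Fin (j + 1)) → K)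
    (hloc : ∀ A γ γ', (∀ i ∈ A, γ i = γ' i) → h A γ = h A γ')
    (hzero : ∀ A γ i, i ∈ A → γ i = 0 → h A γ = 0)
    (halt : ∀ A γ x y, x ∈ A → y ∈ A → x ≠ y → h A (γ * swap x y) = - h A γ)
    (hsum : ∀ γ, ∑ A ∈ ((univ : Finset (Fin (j + 1))).erase 0).powerset, h A γ = 0) :
    ∀ A ⊆ (univ : Finset (Fin (j + 1))).erase 0, ∀ γ, h A γ = 0 := by
  intro A
  induction A using Finset.strongInduction with
  | H A ih =>
  intro hA γ
  by_cases hγ : ∃ i ∈ A, γ i = 0
  · obtain ⟨i, hi, hi0⟩ := hγ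
    exact hzero A γ i hi hi0
  · push Not at hγ
    have h3 := Alt_claim h2 h hloc hzero halt hsum _ A hA rfl γ hγ
    rw [← Finset.sum_erase_add _ _ (Finset.mem_powerset_self A)] at h3
    rw [Finset.sum_eq_zero, zero_add] at h3
    · exact h3
    · intro B hB
      rw [Finset.mem_erase, Finset.mem_powerset] at hB
      exact ih B (Finset.ssubset_iff_subset_ne.2 ⟨hB.2, hB.1⟩) (hB.2.trans hA) γ

end

end Pool.Agent.MP_b35d54_lc.Db
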