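import Pool.Agent.Lib.MP_b35d54_lc_Db.Defs

/-!
# Determinant sums: the determinant that detects full cycles
-/

namespace Pool.Agent.MP_b35d54_lc.Db

open Equiv Equiv.Perm Finset

noncomputable section

/-- row `0` is the unit vector `e_0`, row `i ≠ 0` is `x i` -/
def row0 {K : Type*} [Field K] {j : ℕ} (x : Fin (j + 1) → Fin (j + 1) → K) :
    Matrix (Fin (j + 1)) (Fin (j + 1)) K := fun i => if i = 0 then Pi.single 0 1 else x i

/-- row `0`: `e_0`; row `i ≠ 0`: `e_{α i} - e_{γ i}` -/
def cdet (K : Type*) [Field K] {j : ℕ} (α γ : Perm (Fin (j + 1))) : K :=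
  (row0 fun i => Pi.single (α i) (1 : K) - Pi.single (γ i) 1).det

/-- row `0`: `e_0`; row `i ∈ A`, `i ≠ 0`: `e_{α i}`; row `i ∉ A`, `i ≠ 0`: `e_{γ i}` -/
def pdet (K : Type*) [Field K] {j : ℕ} (A : Finset (Fin (j + 1))) (α γ : Perm (Fin (j + 1))) : K :=
  (row0 fun i => if i ∈ A then Pi.single (α i) (1 : K) else Pi.single (γ i) 1).det

/-- Multilinearity in the rows (`MultilinearMap.map_add_univ` for `Matrix.detRowAlternating`; the
sets containing `0` or not are handled by writing row `0` as `e_0 + 0`). -/
theorem cdet_expand (K : Type*) [Field K] {j : ℕ} (α γ : Perm (Fin (j + 1))) :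
    cdet K α γ = ∑ A ∈ ((univ : Finset (Fin (j + 1))).erase 0).powerset,
      (-1) ^ (j - #A) * pdet K A α γ := by
  classical
  let m : Fin (j + 1) → Fin (j + 1) → K := fun i => if i = 0 then 0 else Pi.single (α i) (1 : K)
  let m' : Fin (j + 1) → Fin (j + 1) → K := fun i =>
    if i = 0 then Pi.single 0 1 else -Pi.single (γ i) (1 : K)
  let f : MultilinearMap K (fun _ : Fin (j + 1) => Fin (j + 1) → K) K :=
    (Matrix.detRowAlternating : (Fin (j + 1) → K) [⋀^Fin (j + 1)]→ₗ[K] K).toMultilinearMap
  have h1 : (row0 fun i => Pi.single (α i) (1 : K) - Pi.single (γ i) 1) = m + m' := by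
    funext i
    simp only [row0, m, m', Pi.add_apply]
    split_ifs
    · rw [zero_add]
    · rw [sub_eq_add_neg]
  have h2 : cdet K α γ = ∑ A : Finset (Fin (j + 1)), f (A.piecewise m m') := by
    have h3 : cdet K α γ = f (m + m') := by
      unfold cdet
      rw [h1]
      rfl
    rw [h3, MultilinearMap.map_add_univ]
  rw [h2]
  symm
  rw [← Finset.sum_subset (Finset.subset_univ ((univ : Finset (Fin (j + 1))).erase 0).powerset)]
  · refine Finset.sum_congr rfl fun A hA => ?_
    have hA0 : (0 : Fin (j + 1)) ∉ A := fun h => by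
      have := Finset.mem_powerset.1 hA h
      simp at this
    let c : Fin (j + 1) → K := fun i => if i = 0 ∨ i ∈ A then 1 else -1
    have h4 : A.piecewise m m' = fun i => c i •
        (row0 fun i => if i ∈ A then Pi.single (α i) (1 : K) else Pi.single (γ i) 1) i := by
      funext i
      by_cases h0 : i = 0
      · subst h0
        rw [Finset.piecewise_eq_of_notMem _ _ _ hA0]
        simp [m', c, row0]
      · by_cases hi : i ∈ A
        · rw [Finset.piecewise_eq_of_mem _ _ _ hi]
          simp [m, c, row0, h0, hi]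
        · rw [Finset.piecewise_eq_of_notMem _ _ _ hi]
          simp [m', c, row0, h0, hi]
    rw [h4, MultilinearMap.map_smul_univ, smul_eq_mul]
    congr 1
    have h5 : ∏ i, c i = (-1) ^ (#(univ.filter fun i => ¬ (i = 0 ∨ i ∈ A))) := by
      simp only [c]
      rw [Finset.prod_ite, Finset.prod_const_one, one_mul, Finset.prod_const]
    rw [h5]
    congr 1
    have h6 : (univ.filter fun i => ¬ (i = 0 ∨ i ∈ A)) =
        ((univ : Finset (Fin (j + 1))).erase 0) \ A := by
      ext i
      simp [not_or]
    rw [h6, Finset.card_sdiff_of_subset (Finset.mem_powerset.1 hA), Finset.card_erase_of_mem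
      (Finset.mem_univ _), Finset.card_univ, Fintype.card_fin, Nat.add_sub_cancel]
  · intro A _ hA
    have hA0 : (0 : Fin (j + 1)) ∈ A := by
      by_contra h
      apply hA
      rw [Finset.mem_powerset]
      intro i hi
      rw [Finset.mem_erase]
      refine ⟨?_, Finset.mem_univ _⟩
      rintro rfl
      exact h hi
    refine f.map_coord_zero 0 ?_
    rw [Finset.piecewise_eq_of_mem _ _ _ hA0]
    simp [m]

end

end Pool.Agent.MP_b35d54_lc.Db
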