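import Pool.Agent.Lib.MP_b35d54_lc_Db.Defs

/-!
# Determinant sums: the permutations with the same edges
-/

namespace Pool.Agent.MP_b35d54_lc.Db

open Equiv Equiv.Perm Finset

noncomputable section

variable {V : Type} [Fintype V] [DecidableEq V]

namespace Cls

theorem ia {X : Type*} (σ : Perm X) (x : X) : σ⁻¹ (σ x) = x := σ.symm_apply_apply x

theorem ai {X : Type*} (σ : Perm X) (x : X) : σ (σ⁻¹ x) = x := σ.apply_symm_apply x

theorem mem_edg (σ : Perm V) (u v : V) :
    s(u, v) ∈ edg σ ↔ u ≠ v ∧ (v = σ u ∨ v = σ⁻¹ u) := by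
  unfold edg
  rw [mem_image]
  constructor
  · rintro ⟨w, hw, h⟩
    have hw' : σ w ≠ w := (mem_filter.1 hw).2
    rcases Sym2.eq_iff.1 h with ⟨h1, h2⟩ | ⟨h1, h2⟩
    · subst h1
      refine ⟨fun h3 => hw' ?_, Or.inl h2.symm⟩
      rw [h2, h3]
    · subst h1
      refine ⟨fun h3 => hw' ?_, Or.inr ?_⟩
      · rw [h2, h3]
      · rw [← h2, Cls.ia]
  · rintro ⟨h1, h2 | h2⟩
    · subst h2
      exact ⟨u, mem_filter.2 ⟨mem_univ _, fun h3 => h1 h3.symm⟩, rfl⟩
    · subst h2
      refine ⟨σ⁻¹ u, mem_filter.2 ⟨mem_univ _, ?_⟩, ?_⟩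
      · rw [Cls.ai]
        exact h1
      · rw [Cls.ai]
        exact Sym2.eq_swap

theorem inv_fix {σ : Perm V} {v : V} (h : σ v = v) : σ⁻¹ v = v := by
  rw [Perm.inv_eq_iff_eq, h]

theorem fix_iff (σ : Perm V) (v : V) : (v = σ v ∨ v = σ⁻¹ v) ↔ ∀ w, s(v, w) ∉ edg σ := by
  constructor
  · intro h w hw
    have h0 : σ v = v := by
      rcases h with h | h
      · exact h.symm
      · exact (Perm.eq_inv_iff_eq.1 h)
    rw [mem_edg] at hw
    rcases hw.2 with h1 | h1
    · exact hw.1 (h1.trans h0).symm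
    · exact hw.1 (h1.trans (inv_fix h0)).symm
  · intro h
    by_contra hcon
    have h1 : v ≠ σ v := fun h2 => hcon (Or.inl h2)
    exact h (σ v) ((mem_edg σ v (σ v)).2 ⟨h1, Or.inl rfl⟩)

theorem zp {p : V → Prop} {σ : Perm V} (h : ∀ v, p v ↔ p (σ v)) (i : ℤ) (v : V) :
    p v ↔ p ((σ ^ i) v) := by
  induction i using Int.induction_on with
  | zero => rw [zpow_zero, Perm.one_apply]
  | succ n ih =>
    rw [ih, h, add_comm, zpow_one_add, Perm.mul_apply]
  | pred n ih =>
    rw [ih, h ((σ ^ (-(n : ℤ) - 1)) v), ← Perm.mul_apply, ← zpow_one_add]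
    have h1 : (1 : ℤ) + (-(n : ℤ) - 1) = -(n : ℤ) := by ring
    rw [h1]

end Cls

/-- the edges of `edg σ` at `v` are `{v, σ v}` and `{v, σ⁻¹ v}` if `v` is not fixed -/
theorem edg_eq_iff (σ σ' : Perm V) :
    edg σ' = edg σ ↔ ∀ v, s(σ' v, σ'⁻¹ v) = s(σ v, σ⁻¹ v) := by
  constructor
  · intro h v
    refine Sym2.ext fun x => ?_
    rw [Sym2.mem_iff, Sym2.mem_iff]
    by_cases hx : v = x
    · subst hx
      rw [Cls.fix_iff, Cls.fix_iff, h]
    · have h1 := Cls.mem_edg σ v x
      have h2 := Cls.mem_edg σ' v x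
      rw [h] at h2
      constructor
      · intro h3
        exact (h1.1 (h2.2 ⟨hx, h3⟩)).2
      · intro h3
        exact (h2.1 (h1.2 ⟨hx, h3⟩)).2
  · intro h
    refine Finset.ext fun e => ?_
    induction e using Sym2.ind with
    | _ u v =>
      have h1 : v ∈ s(σ' u, σ'⁻¹ u) ↔ v ∈ s(σ u, σ⁻¹ u) := by rw [h u]
      rw [Sym2.mem_iff, Sym2.mem_iff] at h1
      rw [Cls.mem_edg, Cls.mem_edg, h1]

theorem edg_inv (σ : Perm V) : edg σ⁻¹ = edg σ := by
  rw [edg_eq_iff]
  intro v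
  rw [inv_inv]
  exact Sym2.eq_swap

/-- The set `U` of the points with `σ' v = σ v` is invariant under `σ` and `σ⁻¹`: if `v ∈ U` and
`w = σ v` then `σ'⁻¹ w = σ⁻¹ w`, so `σ' w = σ w` by the equality of the unordered pairs at `w`;
for `v ∉ U`: `σ' v = σ⁻¹ v`. -/
theorem inv_set {σ σ' : Perm V} (h : ∀ v, s(σ' v, σ'⁻¹ v) = s(σ v, σ⁻¹ v)) (v : V) :
    (σ' v = σ v ↔ σ' (σ v) = σ (σ v)) ∧ (σ' v ≠ σ v → σ' v = σ⁻¹ v) := by
  have h1 := Sym2.eq_iff.1 (h v)
  have h2 := Sym2.eq_iff.1 (h (σ v))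
  rw [Cls.ia] at h2
  refine ⟨⟨fun h3 => ?_, fun h3 => ?_⟩, fun h3 => ?_⟩
  · rcases h2 with h4 | h4
    · exact h4.1
    · rw [h4.1, ← h4.2, Perm.eq_inv_iff_eq, h3]
  · rcases h2 with h4 | h4
    · exact (Perm.inv_eq_iff_eq.1 h4.2).symm
    · have h5 : σ (σ v) = v := by rw [← h3, h4.1]
      have h6 := h4.2
      rw [h5] at h6
      exact (Perm.inv_eq_iff_eq.1 h6).symm
  · rcases h1 with h4 | h4
    · exact absurd h4.1 h3
    · exact h4.1

/-- `σ' = σ` on `U`, `σ' = σ⁻¹` outside of `U` (`inv_set`), `U` invariant: with the restrictions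
`σ_U`, `σ_{Uᶜ}` (`Equiv.Perm.ofSubtype (σ.subtypePerm _)`) we have `σ = σ_U * σ_{Uᶜ}` and
`σ' = σ_U * (σ_{Uᶜ})⁻¹`, so the cycle types agree (`Equiv.Perm.Disjoint.cycleType`,
`cycleType_inv`, `isConj_iff_cycleType_eq`). -/
theorem isConj_of_edg {σ σ' : Perm V} (h : edg σ' = edg σ) : IsConj σ σ' := by
  rw [edg_eq_iff] at h
  have hU : ∀ v, (fun x => σ' x = σ x) (σ v) ↔ (fun x => σ' x = σ x) v :=
    fun v => (inv_set h v).1.symm
  have hN : ∀ v, (fun x => ¬ σ' x = σ x) (σ v) ↔ (fun x => ¬ σ' x = σ x) v :=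
    fun v => not_congr (inv_set h v).1.symm
  let a : Perm V := ofSubtype (σ.subtypePerm (p := fun x => σ' x = σ x) hU)
  let b : Perm V := ofSubtype (σ.subtypePerm (p := fun x => ¬ σ' x = σ x) hN)
  have ha1 : ∀ v, σ' v = σ v → a v = σ v := fun v hv => by
    change ofSubtype (σ.subtypePerm (p := fun x => σ' x = σ x) hU) v = σ v
    rw [ofSubtype_apply_of_mem (p := fun x => σ' x = σ x) _ hv]
    rfl
  have ha2 : ∀ v, ¬ σ' v = σ v → a v = v := fun v hv => by
    exact ofSubtype_apply_of_not_mem (p := fun x => σ' x = σ x) _ hv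
  have hb1 : ∀ v, ¬ σ' v = σ v → b v = σ v := fun v hv => by
    change ofSubtype (σ.subtypePerm (p := fun x => ¬ σ' x = σ x) hN) v = σ v
    rw [ofSubtype_apply_of_mem (p := fun x => ¬ σ' x = σ x) _ hv]
    rfl
  have hb2 : ∀ v, σ' v = σ v → b v = v := fun v hv => by
    exact ofSubtype_apply_of_not_mem (p := fun x => ¬ σ' x = σ x) _ (fun h0 => h0 hv)
  have hab : Perm.Disjoint a b := fun v => by
    by_cases hv : σ' v = σ v
    · exact Or.inr (hb2 v hv)
    · exact Or.inl (ha2 v hv)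
  have h1 : σ = a * b := by
    ext v
    rw [Perm.mul_apply]
    by_cases hv : σ' v = σ v
    · rw [hb2 v hv, ha1 v hv]
    · rw [hb1 v hv, ha2 _ ((hN v).2 hv)]
  have h2 : σ' = a * b⁻¹ := by
    ext v
    rw [Perm.mul_apply]
    by_cases hv : σ' v = σ v
    · rw [Cls.inv_fix (hb2 v hv), ha1 v hv, hv]
    · have h3 : ¬ σ' (σ⁻¹ v) = σ (σ⁻¹ v) := by
        have h4 := hN (σ⁻¹ v)
        rw [Cls.ai] at h4
        exact h4.1 hv
      have h4 : b (σ⁻¹ v) = v := by rw [hb1 _ h3, Cls.ai]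
      have h5 : b⁻¹ v = σ⁻¹ v := by rw [Perm.inv_eq_iff_eq, h4]
      rw [h5, ha2 _ h3, (inv_set h v).2 hv]
  rw [isConj_iff_cycleType_eq, h1, h2, hab.cycleType_mul, hab.inv_right.cycleType_mul,
    cycleType_inv]

/-- The map `σ' ↦ (v ↦ 0 if σ' v = σ v, 1 otherwise)` is a bijection onto the `ZMod 2`-submodule of
the functions `g : V → ZMod 2` with `g (σ v) = g v` for all `v` and `g v = 0` whenever
`σ v = σ⁻¹ v`; a finite `ZMod 2`-module has `2 ^ d` elements (`Module.card_eq_pow_finrank`). -/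
theorem card_class (σ : Perm V) :
    ∃ d : ℕ, #(univ.filter fun σ' : Perm V => edg σ' = edg σ) = 2 ^ d := by
  have h01 : ∀ x : ZMod 2, x ≠ 0 → x = 1 := by decide
  have h10 : (1 : ZMod 2) ≠ 0 := by decide
  let M : Submodule (ZMod 2) (V → ZMod 2) :=
    { carrier := {g | (∀ v, g (σ v) = g v) ∧ ∀ v, σ v = σ⁻¹ v → g v = 0}
      add_mem' := fun {g g'} hg hg' => by
        refine ⟨fun v => ?_, fun v hv => ?_⟩
        · rw [Pi.add_apply, Pi.add_apply, hg.1 v, hg'.1 v]
        · rw [Pi.add_apply, hg.2 v hv, hg'.2 v hv, add_zero]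
      zero_mem' := ⟨fun _ => rfl, fun _ _ => rfl⟩
      smul_mem' := fun c g hg => by
        refine ⟨fun v => ?_, fun v hv => ?_⟩
        · rw [Pi.smul_apply, Pi.smul_apply, hg.1 v]
        · rw [Pi.smul_apply, hg.2 v hv, smul_zero] }
  have hmem : ∀ σ' : Perm V, edg σ' = edg σ →
      (fun v => if σ' v = σ v then (0 : ZMod 2) else 1) ∈ M := by
    intro σ' h
    rw [edg_eq_iff] at h
    refine ⟨fun v => ?_, fun v hv => ?_⟩
    · have h1 := (inv_set h v).1
      change (if σ' (σ v) = σ (σ v) then (0 : ZMod 2) else 1) = if σ' v = σ v then 0 else 1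
      by_cases h2 : σ' v = σ v
      · rw [if_pos h2, if_pos (h1.1 h2)]
      · rw [if_neg h2, if_neg (fun h3 => h2 (h1.2 h3))]
    · change (if σ' v = σ v then (0 : ZMod 2) else 1) = 0
      rw [if_pos]
      by_contra h2
      exact h2 (((inv_set h v).2 h2).trans hv.symm)
  let f : {σ' : Perm V // edg σ' = edg σ} → M := fun σ' =>
    ⟨fun v => if σ'.1 v = σ v then (0 : ZMod 2) else 1, hmem σ'.1 σ'.2⟩
  have hf : Function.Bijective f := by
    constructor
    · rintro ⟨a, ha⟩ ⟨b, hb⟩ hab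
      have h1 : (fun v => if a v = σ v then (0 : ZMod 2) else 1) =
        fun v => if b v = σ v then (0 : ZMod 2) else 1 := congrArg Subtype.val hab
      apply Subtype.ext
      ext v
      have h2 := congrFun h1 v
      change (if a v = σ v then (0 : ZMod 2) else 1) = if b v = σ v then 0 else 1 at h2
      rw [edg_eq_iff] at ha hb
      change a v = b v
      by_cases h3 : a v = σ v
      · rw [if_pos h3] at h2
        by_cases h4 : b v = σ v
        · rw [h3, h4]
        · rw [if_neg h4] at h2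
          exact absurd h2.symm h10
      · rw [if_neg h3] at h2
        by_cases h4 : b v = σ v
        · rw [if_pos h4] at h2
          exact absurd h2 h10
        · rw [(inv_set ha v).2 h3, (inv_set hb v).2 h4]
    · rintro ⟨g, hg⟩
      have hg1 : ∀ v, g (σ v) = g v := hg.1
      have hg2 : ∀ v, σ v = σ⁻¹ v → g v = 0 := hg.2
      have hg3 : ∀ v, g (σ⁻¹ v) = g v := fun v => by
        have h1 := hg1 (σ⁻¹ v)
        rw [Cls.ai] at h1
        exact h1.symm
      let τ : Perm V :=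
        { toFun := fun v => if g v = 0 then σ v else σ⁻¹ v
          invFun := fun v => if g v = 0 then σ⁻¹ v else σ v
          left_inv := fun v => by
            by_cases h1 : g v = 0
            · have h2 : g (σ v) = 0 := by rw [hg1, h1]
              change (if g (if g v = 0 then σ v else σ⁻¹ v) = 0 then
                σ⁻¹ (if g v = 0 then σ v else σ⁻¹ v) else
                σ (if g v = 0 then σ v else σ⁻¹ v)) = v
              rw [if_pos h1, if_pos h2, Cls.ia]
            · have h2 : g (σ⁻¹ v) ≠ 0 := by rwa [hg3]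
              change (if g (if g v = 0 then σ v else σ⁻¹ v) = 0 then
                σ⁻¹ (if g v = 0 then σ v else σ⁻¹ v) else
                σ (if g v = 0 then σ v else σ⁻¹ v)) = v
              rw [if_neg h1, if_neg h2, Cls.ai]
          right_inv := fun v => by
            by_cases h1 : g v = 0
            · have h2 : g (σ⁻¹ v) = 0 := by rw [hg3, h1]
              change (if g (if g v = 0 then σ⁻¹ v else σ v) = 0 then
                σ (if g v = 0 then σ⁻¹ v else σ v) else
                σ⁻¹ (if g v = 0 then σ⁻¹ v else σ v)) = v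
              rw [if_pos h1, if_pos h2, Cls.ai]
            · have h2 : g (σ v) ≠ 0 := by rwa [hg1]
              change (if g (if g v = 0 then σ⁻¹ v else σ v) = 0 then
                σ (if g v = 0 then σ⁻¹ v else σ v) else
                σ⁻¹ (if g v = 0 then σ⁻¹ v else σ v)) = v
              rw [if_neg h1, if_neg h2, Cls.ia] }
      have hτ : ∀ v, τ v = if g v = 0 then σ v else σ⁻¹ v := fun _ => rfl
      have hτi : ∀ v, τ⁻¹ v = if g v = 0 then σ⁻¹ v else σ v := fun _ => rfl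
      have hE : edg τ = edg σ := by
        rw [edg_eq_iff]
        intro v
        rw [hτ, hτi]
        by_cases h1 : g v = 0
        · rw [if_pos h1, if_pos h1]
        · rw [if_neg h1, if_neg h1]
          exact Sym2.eq_swap
      refine ⟨⟨τ, hE⟩, ?_⟩
      apply Subtype.ext
      funext v
      change (if τ v = σ v then (0 : ZMod 2) else 1) = g v
      rw [hτ]
      by_cases h1 : g v = 0
      · rw [if_pos h1, if_pos rfl, h1]
      · rw [if_neg h1, if_neg (fun h2 => h1 (hg2 v h2.symm)), h01 _ h1]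
  have hfin : Finite M := Subtype.finite
  let hft : Fintype M := Fintype.ofFinite M
  refine ⟨Module.finrank (ZMod 2) M, ?_⟩
  rw [← Fintype.card_subtype, Fintype.card_congr (Equiv.ofBijective f hf),
    Module.card_eq_pow_finrank (K := ZMod 2), ZMod.card]

/-- If all points with `σ x ≠ σ⁻¹ x` are in one orbit then `U` (see `inv_set`) contains all of them
or none of them. -/
theorem class_mono {σ : Perm V} (hm : ∀ x y, σ x ≠ σ⁻¹ x → σ y ≠ σ⁻¹ y → σ.SameCycle x y)
    {σ' : Perm V} (h : edg σ' = edg σ) : σ' = σ ∨ σ' = σ⁻¹ := by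
  rw [edg_eq_iff] at h
  by_cases hc : ∀ x, σ' x = σ x
  · exact Or.inl (Equiv.ext hc)
  · right
    obtain ⟨x, hx⟩ := not_forall.1 hc
    ext y
    by_cases hy : σ y = σ⁻¹ y
    · by_cases h1 : σ' y = σ y
      · rw [h1, hy]
      · exact (inv_set h y).2 h1
    · have hx' : σ x ≠ σ⁻¹ x := by
        intro h1
        exact hx (((inv_set h x).2 hx).trans h1.symm)
      obtain ⟨i, hi⟩ := hm x y hx' hy
      have h1 := Cls.zp (p := fun v => ¬ σ' v = σ v) (σ := σ)
        (fun v => not_congr (inv_set h v).1) i x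
      rw [hi] at h1
      exact (inv_set h y).2 (h1.1 hx)

end

end Pool.Agent.MP_b35d54_lc.Db
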