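import Pool.Agent.Lib.MP_b35d54_lc.Cyc

/-!
# Determinant sums: definitions

`n` vertices `V`, weights in a commutative `K`-algebra `B`.  For a permutation `σ` of the vertices
`edg σ` is the set of edges `{v, σ v}` (`σ v ≠ v`) used by it and `wt D W σ` its weight.
-/

namespace Pool.Agent.MP_b35d54_lc.Db

open Equiv Equiv.Perm Finset

noncomputable section

section vert

variable {V : Type} [Fintype V] [DecidableEq V]

/-- the edges used by the permutation `σ` -/
def edg (σ : Perm V) : Finset (Sym2 V) := (univ.filter fun v => σ v ≠ v).image fun v => s(v, σ v)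

/-- the graph with edge set `X` -/
def gr (X : Finset (Sym2 V)) : SimpleGraph V := SimpleGraph.fromEdgeSet (X : Set (Sym2 V))

/-- the number of cycles of `G` with length in `S` -/
def nc (S : Set ℕ) (G : SimpleGraph V) : ℕ :=
  {H : G.Subgraph | IsCyc H ∧ H.verts.ncard ∈ S}.ncard

/-- `E` is the edge set of a cycle whose length is in `S` -/
def CycSet (S : Set ℕ) (E : Finset (Sym2 V)) : Prop :=
  ∃ H : (⊤ : SimpleGraph V).Subgraph, IsCyc H ∧ H.verts.ncard ∈ S ∧ H.edgeSet = (E : Set (Sym2 V))

/-- the weight of a permutation: `D v` at the fixed points, `W v (σ v)` at the other vertices -/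
def wt {B : Type*} [CommRing B] (D : V → B) (W : V → V → B) (σ : Perm V) : B :=
  ∏ v, if σ v = v then D v else W v (σ v)

open Classical in
/-- the matrix `D + W ∘ A_G` -/
def mat {B : Type*} [CommRing B] (D : V → B) (W : V → V → B) (G : SimpleGraph V) :
    Matrix V V B := fun u v => if u = v then D u else if G.Adj u v then W u v else 0

/-- the generalised matrix function of `κ` -/
def gmf {K B : Type*} [CommRing B] [Field K] [Algebra K B] (κ : Perm V → K)
    (M : Matrix V V B) : B := ∑ σ, κ σ • ∏ v, M v (σ v)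

end vert

section pair

variable {V : Type} [Fintype V] [DecidableEq V] {k : ℕ}

/-- the permutation `inl i ↦ inr (α i)`, `inr j ↦ inl (γ⁻¹ j)` -/
def sw (α γ : Perm (Fin k)) : Perm (Fin k ⊕ Fin k) :=
  (Equiv.sumCongr α γ⁻¹).trans (Equiv.sumComm _ _)

/-- the same permutation on the vertices; the other vertices are fixed -/
def sg (e : Fin k ⊕ Fin k ↪ V) (α γ : Perm (Fin k)) : Perm V := (sw α γ).viaEmbedding e

/-- all points in one orbit -/
def Full (τ : Perm (Fin k)) : Prop := ∀ x y, τ.SameCycle x y

/-- all moved points in one orbit -/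
def Mono (τ : Perm (Fin k)) : Prop := ∀ x y, τ x ≠ x → τ y ≠ y → τ.SameCycle x y

open Classical in
/-- first factor of the weight of `sg e α γ` -/
def fa {B : Type*} [CommRing B] (D : V → B) (W : V → V → B) (e : Fin k ⊕ Fin k ↪ V)
    (α : Perm (Fin k)) : B :=
  (∏ v ∈ univ.filter (fun v => v ∉ Set.range e), D v) * ∏ i, W (e (Sum.inl i)) (e (Sum.inr (α i)))

/-- second factor of the weight of `sg e α γ` -/
def fc {B : Type*} [CommRing B] (W : V → V → B) (e : Fin k ⊕ Fin k ↪ V) (γ : Perm (Fin k)) : B :=
  ∏ i, W (e (Sum.inr (γ i))) (e (Sum.inl i))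

end pair

end

end Pool.Agent.MP_b35d54_lc.Db
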