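import Pool.Agent.Lib.MP_b35d54_lc_Db.Defs

/-!
# Determinant sums: a family of `2 ^ t` pairs of matchings
-/

namespace Pool.Agent.MP_b35d54_lc.Db

open Equiv Equiv.Perm Finset

noncomputable section

namespace Fam

/-- exchange `2 i` and `2 i + 1` for `i ∈ A` -/
def pn {t : ℕ} (A : Finset (Fin t)) (x : ℕ) : ℕ :=
  if ∃ i ∈ A, i.val = x / 2 then (if x % 2 = 0 then x + 1 else x - 1) else x

theorem pn_lt {t k : ℕ} (h : 2 * t ≤ k) (A : Finset (Fin t)) {x : ℕ} (hx : x < k) :
    pn A x < k := by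
  unfold pn
  split_ifs with h1 h2
  · obtain ⟨i, -, hi⟩ := h1
    have := i.isLt
    omega
  · omega
  · exact hx

theorem pn_div {t : ℕ} (A : Finset (Fin t)) (x : ℕ) : pn A x / 2 = x / 2 := by
  unfold pn
  split_ifs <;> omega

theorem pn_pn {t : ℕ} (A B : Finset (Fin t)) (x : ℕ) : pn B (pn A x) = pn (symmDiff A B) x := by
  by_cases hA : ∃ i ∈ A, i.val = x / 2
  · by_cases hB : ∃ i ∈ B, i.val = x / 2
    · have h3 : ¬ ∃ i ∈ symmDiff A B, i.val = x / 2 := by
        rintro ⟨i, hi, hi2⟩
        obtain ⟨a, ha, ha2⟩ := hA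
        obtain ⟨b, hb, hb2⟩ := hB
        have e1 : a = i := Fin.ext (by omega)
        have e2 : b = i := Fin.ext (by omega)
        subst e1 e2
        rw [mem_symmDiff] at hi
        tauto
      have h4 : ∃ i ∈ B, i.val = pn A x / 2 := by rw [pn_div]; exact hB
      rw [pn, if_pos h4, pn, if_pos hA, pn, if_neg h3]
      split_ifs <;> omega
    · have h3 : ∃ i ∈ symmDiff A B, i.val = x / 2 := by
        obtain ⟨a, ha, ha2⟩ := hA
        exact ⟨a, by rw [mem_symmDiff]; exact Or.inl ⟨ha, fun h => hB ⟨a, h, ha2⟩⟩, ha2⟩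
      have h4 : ¬ ∃ i ∈ B, i.val = pn A x / 2 := by rw [pn_div]; exact hB
      rw [pn, if_neg h4, pn, if_pos hA, pn, if_pos h3]
  · have h0 : pn A x = x := by rw [pn, if_neg hA]
    rw [h0]
    by_cases hB : ∃ i ∈ B, i.val = x / 2
    · have h3 : ∃ i ∈ symmDiff A B, i.val = x / 2 := by
        obtain ⟨a, ha, ha2⟩ := hB
        exact ⟨a, by rw [mem_symmDiff]; exact Or.inr ⟨ha, fun h => hA ⟨a, h, ha2⟩⟩, ha2⟩
      rw [pn, if_pos hB, pn, if_pos h3]
    · have h3 : ¬ ∃ i ∈ symmDiff A B, i.val = x / 2 := by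
        rintro ⟨i, hi, hi2⟩
        rw [mem_symmDiff] at hi
        rcases hi with hi | hi
        · exact hA ⟨i, hi.1, hi2⟩
        · exact hB ⟨i, hi.1, hi2⟩
      rw [pn, if_neg hB, pn, if_neg h3]

theorem pn_empty {t : ℕ} (x : ℕ) : pn (∅ : Finset (Fin t)) x = x := by
  rw [pn, if_neg]
  rintro ⟨i, hi, -⟩
  simp at hi

/-- the permutation -/
def u {t k : ℕ} (h : 2 * t ≤ k) (A : Finset (Fin t)) : Perm (Fin k) where
  toFun x := ⟨pn A x, pn_lt h A x.isLt⟩
  invFun x := ⟨pn A x, pn_lt h A x.isLt⟩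
  left_inv x := by
    apply Fin.ext
    change pn A (pn A x) = x
    rw [pn_pn, symmDiff_self]
    exact pn_empty _
  right_inv x := by
    apply Fin.ext
    change pn A (pn A x) = x
    rw [pn_pn, symmDiff_self]
    exact pn_empty _

theorem u_val {t k : ℕ} (h : 2 * t ≤ k) (A : Finset (Fin t)) (x : Fin k) :
    (u h A x).val = pn A x := rfl

theorem u_inv_mul {t k : ℕ} (h : 2 * t ≤ k) (A B : Finset (Fin t)) :
    (u h B)⁻¹ * u h A = u h (symmDiff A B) := by
  ext x
  rw [Perm.mul_apply]
  change pn B (pn A x) = pn (symmDiff A B) x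
  exact pn_pn A B x

theorem rot_val {j : ℕ} (x : Fin (j + 1)) (y : ℕ) (hx : x.val = y) (hy : y < j) :
    (finRotate (j + 1) x).val = y + 1 := by
  subst hx
  rw [finRotate_apply, Fin.val_add_one_of_lt]
  rw [Fin.lt_def]
  simpa using hy

/-- the points that are not odd with half in `D` -/
theorem same_zero {t j : ℕ} (h : 2 * t ≤ j + 1) (D : Finset (Fin t)) :
    ∀ (n : ℕ) (hn : n < j + 1), ¬ (n % 2 = 1 ∧ ∃ i ∈ D, i.val = n / 2) →
      (finRotate (j + 1) * u h D).SameCycle 0 ⟨n, hn⟩ := by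
  intro n
  induction n using Nat.strong_induction_on with
  | _ n ih =>
    intro hn hT
    rcases Nat.eq_zero_or_pos n with h0 | h0
    · subst h0
      exact SameCycle.refl _ _
    · by_cases h1 : (n - 1) % 2 = 1 ∧ ∃ i ∈ D, i.val = (n - 1) / 2
      · have h2 : ¬ ((n - 2) % 2 = 1 ∧ ∃ i ∈ D, i.val = (n - 2) / 2) := by
          rintro ⟨h3, -⟩
          omega
        have h3 := ih (n - 2) (by omega) (by omega) h2
        refine h3.trans ?_
        have h4 : (finRotate (j + 1) * u h D) ⟨n - 2, by omega⟩ = ⟨n, hn⟩ := by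
          apply Fin.ext
          rw [Perm.mul_apply]
          have h5 : (u h D ⟨n - 2, by omega⟩).val = n - 1 := by
            rw [u_val, pn]
            have h6 : ∃ i ∈ D, i.val = (n - 2) / 2 := by
              obtain ⟨hpar, i, hi, hi2⟩ := h1
              exact ⟨i, hi, by omega⟩
            simp only
            rw [if_pos h6, if_pos (by omega)]
            omega
          rw [rot_val _ _ h5 (by omega)]
          simp only
          omega
        rw [← h4]
        exact (sameCycle_apply_right.2 (SameCycle.refl _ _))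
      · have h3 := ih (n - 1) (by omega) (by omega) h1
        refine h3.trans ?_
        have h4 : (finRotate (j + 1) * u h D) ⟨n - 1, by omega⟩ = ⟨n, hn⟩ := by
          apply Fin.ext
          rw [Perm.mul_apply]
          have h5 : (u h D ⟨n - 1, by omega⟩).val = n - 1 := by
            rw [u_val, pn]
            simp only
            rw [if_neg]
            rintro ⟨i, hi, hi2⟩
            rcases Nat.mod_two_eq_zero_or_one (n - 1) with h6 | h6
            · exact hT ⟨by omega, i, hi, by omega⟩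
            · exact h1 ⟨h6, i, hi, hi2⟩
          rw [rot_val _ _ h5 (by omega)]
          simp only
          omega
        rw [← h4]
        exact (sameCycle_apply_right.2 (SameCycle.refl _ _))

theorem fixed {t j : ℕ} (h : 2 * t ≤ j + 1) (D : Finset (Fin t)) (n : ℕ) (hn : n < j + 1)
    (hT : n % 2 = 1 ∧ ∃ i ∈ D, i.val = n / 2) :
    (finRotate (j + 1) * u h D) ⟨n, hn⟩ = ⟨n, hn⟩ := by
  apply Fin.ext
  rw [Perm.mul_apply]
  have h5 : (u h D ⟨n, hn⟩).val = n - 1 := by
    rw [u_val, pn]
    simp only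
    rw [if_pos hT.2, if_neg (by omega)]
  rw [rot_val _ _ h5 (by omega)]
  simp only
  omega

end Fam

open Fam

/-- the matchings `α_A = u A`, `γ_B = u B * c⁻¹`, `c` the rotation: `γ_B⁻¹ α_A = c * u (A ∆ B)` -/
theorem fam_quot {t j : ℕ} (h : 2 * t ≤ j + 1) (A B : Finset (Fin t)) :
    (u h B * (finRotate (j + 1))⁻¹)⁻¹ * u h A = finRotate (j + 1) * u h (symmDiff A B) := by
  rw [mul_inv_rev, inv_inv, mul_assoc, u_inv_mul]

theorem fam_mono {t j : ℕ} (h : 2 * t ≤ j + 1) (D : Finset (Fin t)) :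
    Mono (finRotate (j + 1) * u h D) := by
  have key : ∀ x, (finRotate (j + 1) * u h D) x ≠ x →
      (finRotate (j + 1) * u h D).SameCycle 0 x := by
    intro x hx
    refine same_zero h D x.val x.isLt fun hT => hx ?_
    exact fixed h D x.val x.isLt hT
  intro x y hx hy
  exact (key x hx).symm.trans (key y hy)

theorem fam_full {t j : ℕ} (h : 2 * t ≤ j + 1) (D : Finset (Fin t)) :
    Full (finRotate (j + 1) * u h D) ↔ D = ∅ := by
  constructor
  · intro hF
    by_contra hD
    obtain ⟨i, hi⟩ := Finset.nonempty_of_ne_empty hD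
    have hlt := i.isLt
    have h1 := fixed h D (2 * i.val + 1) (by omega) ⟨by omega, i, hi, by omega⟩
    have h2 := hF ⟨2 * i.val + 1, by omega⟩ 0
    have h3 := (SameCycle.eq_of_left h2 h1)
    have h4 := congrArg Fin.val h3
    simp at h4
  · intro hD
    subst hD
    have key : ∀ x, (finRotate (j + 1) * u h ∅).SameCycle 0 x := by
      intro x
      refine same_zero h ∅ x.val x.isLt ?_
      rintro ⟨-, i, hi, -⟩
      simp at hi
    intro x y
    exact (key x).symm.trans (key y)

end

end Pool.Agent.MP_b35d54_lc.Db
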