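import Pool.Agent.Lib.MP_b35d54_lc_Db.Main

/-!
# Determinant sums: choice of the vertices, numerical bounds
-/

namespace Pool.Agent.MP_b35d54_lc.Db

open Equiv Equiv.Perm Finset

noncomputable section

theorem exists_emb {n k : ℕ} (hk : 1 ≤ k) (hkn : 2 * k ≤ n) (Z : Finset (Fin n))
    (hZ : #Z + 2 * k ≤ n + 1) :
    ∃ e : Fin k ⊕ Fin k ↪ Fin n, ∀ x, x ≠ Sum.inl ⟨0, hk⟩ → e x ∉ Z := by
  classical
  obtain ⟨v, hv⟩ : ∃ v : Fin n, 2 * k - 1 ≤ #((univ \ Z).erase v) := by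
    rcases Z.eq_empty_or_nonempty with h | ⟨v, hv⟩
    · refine ⟨⟨0, by omega⟩, ?_⟩
      rw [h, sdiff_empty, card_erase_of_mem (mem_univ _), card_univ, Fintype.card_fin]
      omega
    · refine ⟨v, ?_⟩
      rw [erase_eq_of_notMem (by simp [hv]), card_sdiff_of_subset (subset_univ _), card_univ,
        Fintype.card_fin]
      omega
  have h1 : Fintype.card {x : Fin k ⊕ Fin k // x ≠ Sum.inl ⟨0, hk⟩} ≤
      Fintype.card ↥((univ \ Z).erase v) := by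
    rw [Fintype.card_coe]
    have h2 : Fintype.card {x : Fin k ⊕ Fin k // x ≠ Sum.inl ⟨0, hk⟩} = 2 * k - 1 := by
      rw [Fintype.card_subtype_compl, Fintype.card_subtype_eq, Fintype.card_sum, Fintype.card_fin]
      omega
    omega
  obtain ⟨g⟩ := Function.Embedding.nonempty_of_card_le h1
  refine ⟨⟨fun x => if h : x ≠ Sum.inl ⟨0, hk⟩ then (g ⟨x, h⟩ : Fin n) else v, ?_⟩, ?_⟩
  · intro x y hxy
    simp only at hxy
    by_cases hx : x ≠ Sum.inl ⟨0, hk⟩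
    · by_cases hy : y ≠ Sum.inl ⟨0, hk⟩
      · rw [dif_pos hx, dif_pos hy] at hxy
        have h3 := g.injective (Subtype.ext hxy)
        exact congrArg Subtype.val h3
      · rw [dif_pos hx, dif_neg hy] at hxy
        exact absurd hxy (mem_erase.1 (g ⟨x, hx⟩).2).1
    · by_cases hy : y ≠ Sum.inl ⟨0, hk⟩
      · rw [dif_neg hx, dif_pos hy] at hxy
        exact absurd hxy.symm (mem_erase.1 (g ⟨y, hy⟩).2).1
      · push Not at hx hy
        rw [hx, hy]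
  · intro x hx
    change (if h : x ≠ Sum.inl ⟨0, hk⟩ then (g ⟨x, h⟩ : Fin n) else v) ∉ Z
    rw [dif_pos hx]
    exact (mem_sdiff.1 (mem_erase.1 (g ⟨x, hx⟩).2).2).2

theorem two_pow_le {j d : ℕ} (hj : 1 ≤ j) (h : (2 * j).choose j ≤ 2 * d) :
    2 ^ (2 * (j + 1)) ≤ 8 * (2 * (j + 1)) * d := by
  have h1 := Nat.four_pow_le_two_mul_self_mul_centralBinom j (by omega)
  rw [Nat.centralBinom_eq_two_mul_choose] at h1
  have h2 : 2 ^ (2 * (j + 1)) = 4 * 4 ^ j := by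
    rw [pow_mul, pow_succ]
    norm_num
    ring
  rw [h2]
  calc 4 * 4 ^ j ≤ 4 * (2 * j * (2 * j).choose j) := Nat.mul_le_mul_left _ h1
    _ ≤ 4 * (2 * j * (2 * d)) := by
        exact Nat.mul_le_mul_left _ (Nat.mul_le_mul_left _ h)
    _ ≤ 8 * (2 * (j + 1)) * d := by nlinarith

theorem final {K : Type*} [Field K] {B : Type*} [CommRing B] [Algebra K B]
    [FiniteDimensional K B] {n m : ℕ} (hm : Even m) (h4 : 4 ≤ m) (hmn : m ≤ n) (S : Set ℕ)
    (hS : m ∈ S) (κ : Perm (Fin n) → K) (hκ : ∀ σ τ, κ (τ * σ * τ⁻¹) = κ σ)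
    (hκ0 : ∀ σ, κ σ ≠ 0) (D : Fin n → B) (W : Fin n → Fin n → B) (f : B →ₗ[K] K)
    (h : Formula S κ D W f) :
    2 ^ (m / 4) ≤ 2 * Module.finrank K B ∧
    ((2 : K) ≠ 0 → ∀ Z : Finset (Fin n), #Z + m ≤ n + 1 →
      (∃ ε : B, ∀ u, u ∉ Z → ∀ v, v ∉ Z → W u v = ε * W v u) →
      (m - 2).choose (m / 2 - 1) ≤ 2 * Module.finrank K B ∧
        2 ^ m ≤ 8 * m * Module.finrank K B) := by
  obtain ⟨k, hk⟩ := hm
  obtain ⟨j, rfl⟩ : ∃ j, k = j + 1 := ⟨k - 1, by omega⟩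
  have hm2 : m = 2 * (j + 1) := by omega
  subst hm2
  refine ⟨?_, fun h2 Z hZ hW => ?_⟩
  · obtain ⟨e, -⟩ := exists_emb (k := j + 1) (by omega) hmn ∅ (by simp; omega)
    exact bound_arb (j := j) (t := 2 * (j + 1) / 4) (by omega) (by omega) e hS h hκ hκ0
  · obtain ⟨e, he⟩ := exists_emb (k := j + 1) (by omega) hmn Z hZ
    obtain ⟨ε, hε⟩ := hW
    have key := bound_sym (j := j) (by omega) e hS h2 h hκ hκ0 ε ⟨0, by omega⟩ (by
      intro i i' hi
      refine hε _ (he _ fun h5 => hi (Sum.inl_injective h5)) _ (he _ (by simp)))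
    refine ⟨?_, two_pow_le (by omega) key⟩
    have e1 : 2 * (j + 1) - 2 = 2 * j := by omega
    have e2 : 2 * (j + 1) / 2 - 1 = j := by omega
    rw [e1, e2]
    exact key

end

end Pool.Agent.MP_b35d54_lc.Db
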