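import Pool.Agent.Lib.MP_b35d54_lc_Db.Sig

/-!
# Determinant sums: the two matchings form one cycle if and only if the quotient is a full cycle
-/

namespace Pool.Agent.MP_b35d54_lc.Db

open Equiv Equiv.Perm Finset

noncomputable section

variable {V : Type} [Fintype V] [DecidableEq V] {k : ℕ} (e : Fin k ⊕ Fin k ↪ V)

theorem Gra.ne_of_full (hk : 2 ≤ k) {α γ : Perm (Fin k)} (h : Full (γ⁻¹ * α)) (i : Fin k) :
    α i ≠ γ i := by
  intro h1
  have h2 : (γ⁻¹ * α) i = i := by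
    rw [Perm.mul_apply, h1, Cls.ia]
  obtain ⟨j, hj⟩ : ∃ j : Fin k, j ≠ i := by
    have : Nontrivial (Fin k) := Fin.nontrivial_iff_two_le.2 hk
    exact exists_ne i
  obtain ⟨n, hn⟩ := h i j
  have h3 := (Cls.zp (p := fun v => v = i) (σ := γ⁻¹ * α) (fun v => by
    constructor
    · intro h4
      rw [h4, h2]
    · intro h4
      have h5 : (γ⁻¹ * α) v = (γ⁻¹ * α) i := by rw [h4, h2]
      exact (γ⁻¹ * α).injective h5) n i).1 rfl
  rw [hn] at h3
  exact hj h3

theorem Gra.inv_inl (α γ : Perm (Fin k)) (i : Fin k) :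
    (sg e α γ)⁻¹ (e (Sum.inl i)) = e (Sum.inr (γ i)) := by
  rw [sg_inv, sg_inl]

theorem Gra.inv_inr (α γ : Perm (Fin k)) (i : Fin k) :
    (sg e α γ)⁻¹ (e (Sum.inr i)) = e (Sum.inl (α⁻¹ i)) := by
  rw [sg_inv, sg_inr]

omit [Fintype V] [DecidableEq V] in
theorem Gra.rl {i j : Fin k} (h : e (Sum.inr i) = e (Sum.inl j)) : False :=
  Sum.inr_ne_inl (e.injective h)

/-- the subgraph -/
def Gra.H (α γ : Perm (Fin k)) : (⊤ : SimpleGraph V).Subgraph where
  verts := Set.range e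
  Adj u v := s(u, v) ∈ edg (sg e α γ)
  adj_sub := by
    intro u v h
    exact ((Cls.mem_edg _ _ _).1 h).1
  edge_vert := by
    intro u v h
    rw [Cls.mem_edg] at h
    by_contra hu
    have h1 := sg_out e α γ hu
    rcases h.2 with h2 | h2
    · exact h.1 (h2.trans h1).symm
    · exact h.1 (h2.trans (Cls.inv_fix h1)).symm
  symm := ⟨by
    intro u v h
    rw [Sym2.eq_swap]
    exact h⟩

theorem Gra.adj {α γ : Perm (Fin k)} {u v : V} :
    (Gra.H e α γ).Adj u v ↔ u ≠ v ∧ (v = sg e α γ u ∨ v = (sg e α γ)⁻¹ u) :=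
  Cls.mem_edg _ _ _

theorem Gra.adj_a (α γ : Perm (Fin k)) (i : Fin k) :
    (Gra.H e α γ).Adj (e (Sum.inl i)) (e (Sum.inr (α i))) := by
  rw [Gra.adj, sg_inl]
  exact ⟨fun h => Gra.rl e h.symm, Or.inl rfl⟩

theorem Gra.adj_c (α γ : Perm (Fin k)) (i : Fin k) :
    (Gra.H e α γ).Adj (e (Sum.inl i)) (e (Sum.inr (γ i))) := by
  rw [Gra.adj, Gra.inv_inl]
  exact ⟨fun h => Gra.rl e h.symm, Or.inr rfl⟩

theorem Gra.conn (hk : 2 ≤ k) {α γ : Perm (Fin k)} (h : Full (γ⁻¹ * α)) :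
    (Gra.H e α γ).Connected := by
  have i₀ : Fin k := ⟨0, by omega⟩
  rw [SimpleGraph.Subgraph.connected_iff]
  refine ⟨⟨?_⟩, ⟨e (Sum.inl i₀), _, rfl⟩⟩
  have hl : ∀ i, (Gra.H e α γ).coe.Reachable ⟨e (Sum.inl i₀), _, rfl⟩
      ⟨e (Sum.inl i), _, rfl⟩ := by
    have hstep : ∀ i : Fin k, (Gra.H e α γ).coe.Reachable ⟨e (Sum.inl i), _, rfl⟩
        ⟨e (Sum.inl ((γ⁻¹ * α) i)), _, rfl⟩ := by
      intro i
      have h1 : (Gra.H e α γ).coe.Adj ⟨e (Sum.inl i), _, rfl⟩ ⟨e (Sum.inr (α i)), _, rfl⟩ :=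
        Gra.adj_a e α γ i
      have h2 : (Gra.H e α γ).coe.Adj ⟨e (Sum.inl ((γ⁻¹ * α) i)), _, rfl⟩
          ⟨e (Sum.inr (α i)), _, rfl⟩ := by
        have h3 := Gra.adj_c e α γ ((γ⁻¹ * α) i)
        rw [Perm.mul_apply, Cls.ai] at h3
        exact h3
      exact h1.reachable.trans h2.symm.reachable
    intro i
    obtain ⟨n, hn⟩ := h i₀ i
    have h3 := (Cls.zp (p := fun j => (Gra.H e α γ).coe.Reachable ⟨e (Sum.inl i₀), _, rfl⟩
      ⟨e (Sum.inl j), _, rfl⟩) (σ := γ⁻¹ * α)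
      (fun v => ⟨fun h4 => h4.trans (hstep v), fun h4 => h4.trans (hstep v).symm⟩) n i₀).1
      (SimpleGraph.Reachable.refl _)
    rw [hn] at h3
    exact h3
  have hall : ∀ x : (Gra.H e α γ).verts,
      (Gra.H e α γ).coe.Reachable ⟨e (Sum.inl i₀), _, rfl⟩ x := by
    rintro ⟨_, y, rfl⟩
    rcases y with i | j
    · exact hl i
    · refine (hl (α⁻¹ j)).trans (SimpleGraph.Adj.reachable ?_)
      have h1 := Gra.adj_a e α γ (α⁻¹ j)
      rw [Cls.ai] at h1
      exact h1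
  intro x y
  exact (hall x).symm.trans (hall y)

theorem Gra.deg (hk : 2 ≤ k) {α γ : Perm (Fin k)} (h : Full (γ⁻¹ * α)) {v : V}
    (hv : v ∈ Set.range e) : ((Gra.H e α γ).neighborSet v).ncard = 2 := by
  have h1 : (Gra.H e α γ).neighborSet v = {sg e α γ v, (sg e α γ)⁻¹ v} ∧
      sg e α γ v ≠ (sg e α γ)⁻¹ v := by
    obtain ⟨y, rfl⟩ := hv
    have hne : sg e α γ (e y) ≠ e y ∧ (sg e α γ)⁻¹ (e y) ≠ e y := by
      rcases y with i | j
      · rw [sg_inl, Gra.inv_inl]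
        exact ⟨fun h => Gra.rl e h, fun h => Gra.rl e h⟩
      · rw [sg_inr, Gra.inv_inr]
        exact ⟨fun h => Gra.rl e h.symm, fun h => Gra.rl e h.symm⟩
    constructor
    · ext u
      rw [SimpleGraph.Subgraph.mem_neighborSet, Gra.adj]
      constructor
      · intro h2
        exact h2.2
      · intro h2
        refine ⟨?_, h2⟩
        rcases h2 with h2 | h2
        · rw [h2]
          exact hne.1.symm
        · rw [Set.mem_singleton_iff] at h2
          rw [h2]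
          exact hne.2.symm
    · rcases y with i | j
      · rw [sg_inl, Gra.inv_inl]
        intro h2
        exact Gra.ne_of_full hk h i (Sum.inr.inj (e.injective h2))
      · rw [sg_inr, Gra.inv_inr]
        intro h2
        have h3 : γ⁻¹ j = α⁻¹ j := Sum.inl.inj (e.injective h2)
        refine Gra.ne_of_full hk h (γ⁻¹ j) ?_
        rw [Cls.ai, h3, Cls.ai]
  rw [h1.1, Set.ncard_pair h1.2]

/-- If `γ⁻¹ * α` is full: the subgraph with vertices `Set.range e` and edges `edg (sg e α γ)` is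
connected and 2-regular (the neighbours of `e (inl i)` are `e (inr (α i)) ≠ e (inr (γ i))`). -/
theorem cycSet_of_full (hk : 2 ≤ k) (S : Set ℕ) (hS : 2 * k ∈ S) {α γ : Perm (Fin k)}
    (h : Full (γ⁻¹ * α)) : CycSet S (edg (sg e α γ)) := by
  refine ⟨Gra.H e α γ, ⟨Gra.conn e hk h, fun v hv => Gra.deg e hk h hv⟩, ?_, ?_⟩
  · have h1 : (Gra.H e α γ).verts.ncard = 2 * k := by
      change (Set.range e).ncard = 2 * k
      rw [← Set.image_univ, Set.ncard_image_of_injective _ e.injective, Set.ncard_univ,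
        Nat.card_eq_fintype_card, Fintype.card_sum, Fintype.card_fin]
      ring
    rw [h1]
    exact hS
  · ext z
    induction z using Sym2.ind with
    | _ u v => exact Iff.rfl

/-- If `H` is a connected subgraph with edge set `edg (sg e α γ)` and minimal degree `≥ 1`, all
`e (inl i)` are vertices of `H` (they are on edges), and the set of the `e (inl i)`,
`e (inr (α i))` with `i` in one orbit of `γ⁻¹ * α` is closed under adjacency. -/
theorem full_of_cycSet (S : Set ℕ) {α γ : Perm (Fin k)} (h : CycSet S (edg (sg e α γ))) :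
    Full (γ⁻¹ * α) := by
  obtain ⟨H, hH, -, hE⟩ := h
  have hadj : ∀ u v, H.Adj u v ↔ u ≠ v ∧ (v = sg e α γ u ∨ v = (sg e α γ)⁻¹ u) := by
    intro u v
    rw [← SimpleGraph.Subgraph.mem_edgeSet, hE, Finset.mem_coe, Cls.mem_edg]
  have hv : ∀ i, e (Sum.inl i) ∈ H.verts := by
    intro i
    refine H.edge_vert (w := e (Sum.inr (α i))) ?_
    rw [hadj, sg_inl]
    exact ⟨fun h => Gra.rl e h.symm, Or.inl rfl⟩
  intro x y
  have key : ∀ u v : H.verts, H.coe.Walk u v →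
      (∃ i, (γ⁻¹ * α).SameCycle x i ∧ (u.1 = e (Sum.inl i) ∨ u.1 = e (Sum.inr (α i)))) →
      ∃ i, (γ⁻¹ * α).SameCycle x i ∧ (v.1 = e (Sum.inl i) ∨ v.1 = e (Sum.inr (α i))) := by
    intro u v w
    induction w with
    | nil => exact fun h => h
    | cons huw _ ih =>
      intro h1
      apply ih
      obtain ⟨i, hi, h2⟩ := h1
      have h3 := (hadj _ _).1 (show H.Adj _ _ from huw)
      rcases h2 with h2 | h2
      · rw [h2, sg_inl, Gra.inv_inl] at h3
        rcases h3.2 with h4 | h4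
        · exact ⟨i, hi, Or.inr h4⟩
        · refine ⟨(γ⁻¹ * α)⁻¹ i, (sameCycle_symm_apply_right).2 hi, Or.inr ?_⟩
          rw [h4, mul_inv_rev, inv_inv, Perm.mul_apply, Cls.ai]
      · rw [h2, sg_inr, Gra.inv_inr, Cls.ia] at h3
        rcases h3.2 with h4 | h4
        · refine ⟨(γ⁻¹ * α) i, (sameCycle_apply_right).2 hi, Or.inl ?_⟩
          rw [h4, Perm.mul_apply]
        · exact ⟨i, hi, Or.inl h4⟩
  obtain ⟨w⟩ := hH.1.preconnected ⟨e (Sum.inl x), hv x⟩ ⟨e (Sum.inl y), hv y⟩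
  obtain ⟨i, hi, h2 | h2⟩ := key _ _ w ⟨x, SameCycle.refl _ _, Or.inl rfl⟩
  · have h3 : y = i := Sum.inl.inj (e.injective h2)
    rw [h3]
    exact hi
  · exact (Gra.rl e h2.symm).elim

end

end Pool.Agent.MP_b35d54_lc.Db
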