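import Pool.Agent.Lib.MP_b35d54_lc_Db.Defs
import Pool.Agent.Lib.MP_b35d54_lc.Mob

/-!
# Determinant sums: from all graphs to one set of edges
-/

namespace Pool.Agent.MP_b35d54_lc.Db

open Equiv Equiv.Perm Finset

noncomputable section

variable {V : Type} [Fintype V] [DecidableEq V]

namespace Inv

/-- the same subgraph in another graph -/
def tr {G G' : SimpleGraph V} (H : G.Subgraph) (h : ∀ u v, H.Adj u v → G'.Adj u v) :
    G'.Subgraph where
  verts := H.verts
  Adj := H.Adj
  adj_sub := h _ _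
  edge_vert := H.edge_vert
  symm := H.symm

omit [Fintype V] [DecidableEq V] in
theorem tr_edgeSet {G G' : SimpleGraph V} (H : G.Subgraph) (h : ∀ u v, H.Adj u v → G'.Adj u v) :
    (tr H h).edgeSet = H.edgeSet := by
  ext e
  induction e using Sym2.ind with
  | _ x y => exact Iff.rfl

omit [Fintype V] [DecidableEq V] in
theorem tr_isCyc {G G' : SimpleGraph V} {H : G.Subgraph} (h : ∀ u v, H.Adj u v → G'.Adj u v)
    (hH : IsCyc H) : IsCyc (tr H h) :=
  ⟨⟨hH.1.coe⟩, fun v hv => hH.2 v hv⟩

omit [Fintype V] [DecidableEq V] in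
theorem eq_of_edgeSet {G : SimpleGraph V} {H H' : G.Subgraph} (h : IsCyc H) (h' : IsCyc H')
    (he : H.edgeSet = H'.edgeSet) : H = H' := by
  have hadj : ∀ u v, H.Adj u v ↔ H'.Adj u v := by
    intro u v
    rw [← SimpleGraph.Subgraph.mem_edgeSet, ← SimpleGraph.Subgraph.mem_edgeSet, he]
  have key : ∀ {H H' : G.Subgraph}, IsCyc H → (∀ u v, H.Adj u v ↔ H'.Adj u v) →
      H.verts ⊆ H'.verts := by
    intro H H' h hadj v hv
    have h1 := h.2 v hv
    have h2 : (H.neighborSet v).Nonempty := by
      apply Set.nonempty_of_ncard_ne_zero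
      omega
    obtain ⟨w, hw⟩ := h2
    exact H'.edge_vert ((hadj v w).1 hw)
  apply SimpleGraph.Subgraph.ext
  · exact Set.Subset.antisymm (key h hadj) (key h' fun u v => (hadj u v).symm)
  · funext u v
    exact propext (hadj u v)

end Inv

open Classical in
/-- A cycle `H` of the graph with edge set `X` is determined by its edge set `F ⊆ X` (every vertex
of `H` is on an edge), and `F` satisfies `CycSet S F` (map `H` to a subgraph of `⊤`:
`SimpleGraph.Subgraph.map`, or define it by hand), conversely a cycle in `⊤` with edge set `F ⊆ X`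
is a subgraph of the graph with edge set `X`. -/
theorem nc_gr (S : Set ℕ) (X : Finset (Sym2 V)) :
    nc S (gr X) = #(X.powerset.filter fun F => CycSet S F) := by
  have e0 : nc S (gr X) = (((X.powerset.filter fun F => CycSet S F) : Finset (Finset (Sym2 V))) :
      Set (Finset (Sym2 V))).ncard := by
    unfold nc
    refine Set.ncard_congr (fun H _ => H.edgeSet.toFinset) ?_ ?_ ?_
    · rintro H ⟨hH, hS⟩
      rw [Finset.mem_coe, Finset.mem_filter, Finset.mem_powerset]
      refine ⟨?_, ?_⟩
      · intro e he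
        rw [Set.mem_toFinset] at he
        have h1 := H.edgeSet_subset he
        unfold gr at h1
        rw [SimpleGraph.edgeSet_fromEdgeSet] at h1
        exact Finset.mem_coe.1 h1.1
      · have htop : ∀ u v, H.Adj u v → (⊤ : SimpleGraph V).Adj u v := fun u v h =>
          (SimpleGraph.top_adj u v).2 h.ne
        exact ⟨Inv.tr H htop, Inv.tr_isCyc htop hH, hS, by
          rw [Inv.tr_edgeSet, Set.coe_toFinset]⟩
    · rintro H H' ⟨hH, _⟩ ⟨hH', _⟩ he
      exact Inv.eq_of_edgeSet hH hH' (Set.toFinset_inj.1 he)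
    · intro F hF
      rw [Finset.mem_coe, Finset.mem_filter, Finset.mem_powerset] at hF
      obtain ⟨hFX, H, hH, hS, hHF⟩ := hF
      have hgr : ∀ u v, H.Adj u v → (gr X).Adj u v := by
        intro u v h
        unfold gr
        rw [SimpleGraph.fromEdgeSet_adj]
        refine ⟨Finset.mem_coe.2 (hFX ?_), h.ne⟩
        rw [← Finset.mem_coe, ← hHF, SimpleGraph.Subgraph.mem_edgeSet]
        exact h
      refine ⟨Inv.tr H hgr, ⟨Inv.tr_isCyc hgr hH, hS⟩, ?_⟩
      apply Finset.coe_injective
      rw [Set.coe_toFinset, Inv.tr_edgeSet, hHF]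
  rw [e0, Set.ncard_coe_finset]

/-- `∏ v, mat D W (gr X) v (σ v) = wt D W σ` if `edg σ ⊆ X`, and `0` otherwise (some factor
vanishes). -/
theorem prod_mat {B : Type*} [CommRing B] (D : V → B) (W : V → V → B) (X : Finset (Sym2 V))
    (σ : Perm V) :
    ∏ v, mat D W (gr X) v (σ v) = if edg σ ⊆ X then wt D W σ else 0 := by
  classical
  split_ifs with h
  · refine prod_congr rfl fun v _ => ?_
    unfold mat
    by_cases hv : σ v = v
    · rw [if_pos hv.symm, if_pos hv]
    · rw [if_neg (Ne.symm hv), if_neg hv, if_pos]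
      unfold gr
      rw [SimpleGraph.fromEdgeSet_adj]
      refine ⟨Finset.mem_coe.2 (h ?_), Ne.symm hv⟩
      exact mem_image_of_mem _ (mem_filter.2 ⟨mem_univ v, hv⟩)
  · rw [not_subset] at h
    obtain ⟨e, he, heX⟩ := h
    obtain ⟨v, hv, rfl⟩ := mem_image.1 he
    have hv' := (mem_filter.1 hv).2
    apply prod_eq_zero (mem_univ v)
    unfold mat
    rw [if_neg (Ne.symm hv'), if_neg]
    unfold gr
    rw [SimpleGraph.fromEdgeSet_adj]
    rintro ⟨h1, _⟩
    exact heX (Finset.mem_coe.1 h1)

open Classical in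
/-- Alternating sum of `h (gr (E \ T))` over `T ⊆ E` with `Pool.Agent.MP_b35d54_lc.mob_ind`,
`nc_gr` and `prod_mat`; the graphs `gr (E \ T) ≤ gr E` are 2-colorable. -/
theorem inv_formula {K B : Type*} [Field K] [CommRing B] [Algebra K B] (κ : Perm V → K)
    (D : V → B) (W : V → V → B) (f : B →ₗ[K] K) (S : Set ℕ)
    (h : ∀ G : SimpleGraph V, G.Colorable 2 → (nc S G : K) = f (gmf κ (mat D W G)))
    (E : Finset (Sym2 V)) (hE : (gr E).Colorable 2) :
    ∑ σ ∈ univ.filter (fun σ : Perm V => edg σ = E), κ σ * f (wt D W σ) =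
      if CycSet S E then 1 else 0 := by
  have hcol : ∀ T : Finset (Sym2 V), (gr (E \ T)).Colorable 2 := by
    intro T
    refine SimpleGraph.Colorable.mono_left ?_ hE
    unfold gr
    exact SimpleGraph.fromEdgeSet_mono (Finset.coe_subset.2 sdiff_subset)
  have h1 : ∀ T : Finset (Sym2 V), (nc S (gr (E \ T)) : K) =
      ∑ F ∈ E.powerset, (if CycSet S F then 1 else 0) * (if F ⊆ E \ T then 1 else 0) := by
    intro T
    rw [nc_gr, card_filter, Nat.cast_sum, ← sum_subset (powerset_mono.2 (sdiff_subset (s := E)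
      (t := T)))]
    · refine sum_congr rfl fun F hF => ?_
      rw [if_pos (mem_powerset.1 hF), mul_one]
      push_cast
      rfl
    · intro F _ hF
      rw [if_neg fun h2 => hF (mem_powerset.2 h2), mul_zero]
  have h2 : ∀ T : Finset (Sym2 V), f (gmf κ (mat D W (gr (E \ T)))) =
      ∑ σ, κ σ * f (wt D W σ) * (if edg σ ⊆ E \ T then 1 else 0) := by
    intro T
    unfold gmf
    rw [map_sum]
    refine sum_congr rfl fun σ _ => ?_
    rw [map_smul, smul_eq_mul, prod_mat]
    split_ifs
    · rw [mul_one]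
    · rw [map_zero, mul_zero, mul_zero]
  have h3 : ∑ T ∈ E.powerset, (-1 : K) ^ #T * (nc S (gr (E \ T)) : K) =
      if CycSet S E then 1 else 0 := by
    simp_rw [h1, mul_sum]
    rw [sum_comm]
    have h4 : ∀ F ∈ E.powerset, ∑ T ∈ E.powerset, (-1 : K) ^ #T *
        ((if CycSet S F then 1 else 0) * (if F ⊆ E \ T then 1 else 0)) =
        (if CycSet S F then 1 else 0) * (if F = E then 1 else 0) := by
      intro F _
      rw [← mob_ind (R := K) F E, mul_sum]
      refine sum_congr rfl fun T _ => ?_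
      ring
    rw [sum_congr rfl h4, sum_eq_single E]
    · rw [if_pos rfl, mul_one]
    · intro F _ hF
      rw [if_neg hF, mul_zero]
    · intro hn
      exact absurd (mem_powerset.2 (Subset.refl E)) hn
  have h5 : ∑ T ∈ E.powerset, (-1 : K) ^ #T * (nc S (gr (E \ T)) : K) =
      ∑ σ ∈ univ.filter (fun σ : Perm V => edg σ = E), κ σ * f (wt D W σ) := by
    have h6 : ∀ T ∈ E.powerset, (-1 : K) ^ #T * (nc S (gr (E \ T)) : K) =
        ∑ σ, κ σ * f (wt D W σ) * ((-1 : K) ^ #T * (if edg σ ⊆ E \ T then 1 else 0)) := by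
      intro T _
      rw [h _ (hcol T), h2, mul_sum]
      refine sum_congr rfl fun σ _ => ?_
      ring
    rw [sum_congr rfl h6, sum_comm, sum_filter]
    refine sum_congr rfl fun σ _ => ?_
    rw [← mul_sum, mob_ind]
    split_ifs
    · rw [mul_one]
    · rw [mul_zero]
  rw [← h5, h3]

end

end Pool.Agent.MP_b35d54_lc.Db
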