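import Pool.Agent.Lib.MP_b35d54_lc_Db.Defs

/-!
# Determinant sums: matrices that factor through the algebra have small rank
-/

namespace Pool.Agent.MP_b35d54_lc.Db

open Finset

noncomputable section

namespace RankB

theorem expand {K B : Type*} [Field K] [CommRing B] [Algebra K B] [FiniteDimensional K B]
    (f : B →ₗ[K] K) (a b : B) : f (a * b) = ∑ t : Fin (Module.finrank K B),
      (Module.finBasis K B).repr a t * f (Module.finBasis K B t * b) := by
  conv_lhs => rw [← (Module.finBasis K B).sum_repr a]
  rw [Finset.sum_mul, map_sum]
  refine Finset.sum_congr rfl fun t _ => ?_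
  rw [smul_mul_assoc, map_smul, smul_eq_mul]

end RankB

/-- Each of the two summands is a product of a matrix with `dim B` columns and one with `dim B`
rows (`Module.finBasis K B`, `p x = ∑ t, (coordinate t of p x) • e_t`), use `Matrix.rank_mul_le`,
`Matrix.rank_le_width`, `Matrix.rank_add_le`. -/
theorem rank_le {K B : Type*} [Field K] [CommRing B] [Algebra K B] [FiniteDimensional K B]
    {ι ι' : Type*} [Fintype ι] [Fintype ι'] (f : B →ₗ[K] K) (p r : ι → B) (q s : ι' → B) :
    (Matrix.of fun x y => f (p x * q y) + f (r x * s y)).rank ≤ 2 * Module.finrank K B := by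
  classical
  have h : (Matrix.of fun x y => f (p x * q y) + f (r x * s y)) =
      (Matrix.of fun (x : ι) (t : Fin (Module.finrank K B) ⊕ Fin (Module.finrank K B)) =>
        Sum.elim (fun t => (Module.finBasis K B).repr (p x) t)
          (fun t => (Module.finBasis K B).repr (r x) t) t) *
      (Matrix.of fun (t : Fin (Module.finrank K B) ⊕ Fin (Module.finrank K B)) (y : ι') =>
        Sum.elim (fun t => f (Module.finBasis K B t * q y))
          (fun t => f (Module.finBasis K B t * s y)) t) := by
    ext x y
    rw [Matrix.mul_apply, Fintype.sum_sum_type]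
    simp only [Matrix.of_apply, Sum.elim_inl, Sum.elim_inr]
    rw [RankB.expand f (p x) (q y), RankB.expand f (r x) (s y)]
  rw [h]
  refine (Matrix.rank_mul_le_left _ _).trans ((Matrix.rank_le_card_width _).trans ?_)
  rw [Fintype.card_sum, Fintype.card_fin]
  omega

end

end Pool.Agent.MP_b35d54_lc.Db
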