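import Pool.Agent.Lib.MP_b35d54_lc_Db.Rank
import Pool.Agent.Lib.MP_b35d54_lc_Db.RankB
import Pool.Agent.Lib.MP_b35d54_lc_Db.Inv
import Pool.Agent.Lib.MP_b35d54_lc_Db.Gra
import Pool.Agent.Lib.MP_b35d54_lc_Db.Fam

/-!
# Determinant sums: the two lower bounds for a given embedding
-/

namespace Pool.Agent.MP_b35d54_lc.Db

open Equiv Equiv.Perm Finset

noncomputable section

/-- the formula for the number of cycles of bipartite graphs -/
def Formula {V : Type} [Fintype V] [DecidableEq V] {K B : Type*} [Field K] [CommRing B]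
    [Algebra K B] (S : Set ℕ) (κ : Perm V → K) (D : V → B) (W : V → V → B) (f : B →ₗ[K] K) :
    Prop :=
  ∀ G : SimpleGraph V, G.Colorable 2 → (nc S G : K) = f (gmf κ (mat D W G))

variable {V : Type} [Fintype V] [DecidableEq V] {k : ℕ} (e : Fin k ⊕ Fin k ↪ V)
variable {K B : Type*} [Field K] [CommRing B] [Algebra K B] {S : Set ℕ} {κ : Perm V → K}
  {D : V → B} {W : V → V → B} {f : B →ₗ[K] K}

/-- the value of the functional at the two orientations -/
def sv (f : B →ₗ[K] K) (D : V → B) (W : V → V → B) (e : Fin k ⊕ Fin k ↪ V)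
    (α γ : Perm (Fin k)) : K :=
  f (fa D W e α * fc W e γ) + f (fa D W e γ * fc W e α)

theorem sv_eq (α γ : Perm (Fin k)) :
    sv f D W e α γ = f (wt D W (sg e α γ)) + f (wt D W (sg e α γ)⁻¹) := by
  rw [sg_inv, wt_sg, wt_sg, sv]

theorem kconst (hκ : ∀ σ τ, κ (τ * σ * τ⁻¹) = κ σ) {σ σ' : Perm V} (h : IsConj σ σ') :
    κ σ' = κ σ := by
  obtain ⟨c, hc⟩ := isConj_iff.1 h
  rw [← hc, hκ]

open Classical in
theorem twice (hF : Formula S κ D W f) (hκ : ∀ σ τ, κ (τ * σ * τ⁻¹) = κ σ)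
    (α γ : Perm (Fin k))
    (hs : ∀ σ : Perm V, edg σ = edg (sg e α γ) →
      f (wt D W σ) + f (wt D W σ⁻¹) = sv f D W e α γ) :
    κ (sg e α γ) * #(univ.filter fun σ : Perm V => edg σ = edg (sg e α γ)) *
      sv f D W e α γ = 2 * if CycSet S (edg (sg e α γ)) then 1 else 0 := by
  have h1 := inv_formula κ D W f S hF (edg (sg e α γ)) (sg_colorable e α γ)
  have h2 : ∑ σ ∈ univ.filter (fun σ : Perm V => edg σ = edg (sg e α γ)),
      κ σ * f (wt D W σ) =
      ∑ σ ∈ univ.filter (fun σ : Perm V => edg σ = edg (sg e α γ)), κ σ⁻¹ * f (wt D W σ⁻¹) := by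
    refine Finset.sum_bij' (fun σ _ => σ⁻¹) (fun σ _ => σ⁻¹) ?_ ?_ ?_ ?_ ?_
    · intro σ hσ
      rw [mem_filter] at hσ ⊢
      exact ⟨mem_univ _, by rw [edg_inv]; exact hσ.2⟩
    · intro σ hσ
      rw [mem_filter] at hσ ⊢
      exact ⟨mem_univ _, by rw [edg_inv]; exact hσ.2⟩
    · intro σ _
      exact inv_inv σ
    · intro σ _
      exact inv_inv σ
    · intro σ _
      rw [inv_inv]
  rw [two_mul, ← h1]
  nth_rewrite 2 [h2]
  rw [← Finset.sum_add_distrib]
  have h3 : ∀ σ ∈ univ.filter (fun σ : Perm V => edg σ = edg (sg e α γ)),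
      κ σ * f (wt D W σ) + κ σ⁻¹ * f (wt D W σ⁻¹) = κ (sg e α γ) * sv f D W e α γ := by
    intro σ hσ
    rw [mem_filter] at hσ
    have c1 : κ σ = κ (sg e α γ) := kconst hκ (isConj_of_edg hσ.2)
    have c2 : κ σ⁻¹ = κ (sg e α γ) := kconst hκ (isConj_of_edg (by rw [edg_inv]; exact hσ.2))
    rw [c1, c2, ← mul_add, hs σ hσ.2]
  rw [Finset.sum_congr rfl h3, Finset.sum_const, nsmul_eq_mul]
  ring

theorem full_ne {j : ℕ} (hj : 1 ≤ j) {τ : Perm (Fin (j + 1))} (h : Full τ) (x : Fin (j + 1)) :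
    τ x ≠ x := by
  intro hx
  obtain ⟨y, hy⟩ : ∃ y : Fin (j + 1), y ≠ x := by
    have : Nontrivial (Fin (j + 1)) := Fin.nontrivial_iff_two_le.2 (by omega)
    exact exists_ne x
  exact hy (SameCycle.eq_of_left (h x y) hx).symm

theorem full_mono {τ : Perm (Fin k)} (h : Full τ) : Mono τ := fun x y _ _ => h x y

open Classical in
/-- the class of a pair of matchings with one nontrivial component -/
theorem class_pair {α γ : Perm (Fin k)} (hne : α ≠ γ) (h : Mono (γ⁻¹ * α)) :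
    (univ.filter fun σ : Perm V => edg σ = edg (sg e α γ)) = {sg e α γ, (sg e α γ)⁻¹} ∧
      sg e α γ ≠ (sg e α γ)⁻¹ := by
  constructor
  · ext σ
    rw [mem_filter, mem_insert, mem_singleton]
    constructor
    · rintro ⟨-, hσ⟩
      exact class_mono (sg_mono e h) hσ
    · rintro (rfl | rfl)
      · exact ⟨mem_univ _, rfl⟩
      · exact ⟨mem_univ _, edg_inv _⟩
  · intro h1
    apply hne
    ext i
    rw [sg_inv] at h1
    have h2 := congrArg (fun σ : Perm V => σ (e (Sum.inl i))) h1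
    simp only [sg_inl] at h2
    have h3 := Sum.inr_injective (e.injective h2)
    rw [h3]

open Classical in
/-- any weights, one nontrivial component -/
theorem sv_mono {j : ℕ} (hj : 1 ≤ j) (e : Fin (j + 1) ⊕ Fin (j + 1) ↪ V)
    (hS : 2 * (j + 1) ∈ S) (hF : Formula S κ D W f)
    (hκ : ∀ σ τ, κ (τ * σ * τ⁻¹) = κ σ) (hκ0 : ∀ σ, κ σ ≠ 0) {α γ : Perm (Fin (j + 1))}
    (h : Mono (γ⁻¹ * α)) :
    κ (sg e α γ) * sv f D W e α γ = if Full (γ⁻¹ * α) then 1 else 0 := by
  have hcyc : CycSet S (edg (sg e α γ)) ↔ Full (γ⁻¹ * α) :=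
    ⟨fun hc => full_of_cycSet e S hc, fun hf => cycSet_of_full e (by omega) S hS hf⟩
  have h1 := inv_formula κ D W f S hF (edg (sg e α γ)) (sg_colorable e α γ)
  by_cases hne : α = γ
  · subst hne
    have hnf : ¬ Full (α⁻¹ * α) := by
      intro hf
      exact full_ne hj hf 0 (by simp)
    have hinv : (sg e α α)⁻¹ = sg e α α := sg_inv e α α
    have hcl : (univ.filter fun σ : Perm V => edg σ = edg (sg e α α)) = {sg e α α} := by
      ext σ
      rw [mem_filter, mem_singleton]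
      constructor
      · rintro ⟨-, hσ⟩
        rcases class_mono (sg_mono e h) hσ with h2 | h2
        · exact h2
        · rw [h2, hinv]
      · rintro rfl
        exact ⟨mem_univ _, rfl⟩
    rw [hcl, Finset.sum_singleton, if_neg (fun hc => hnf (hcyc.1 hc))] at h1
    rw [if_neg hnf, sv_eq, hinv, mul_add, h1, add_zero]
  · obtain ⟨hcl, hn⟩ := class_pair e hne h
    rw [hcl, Finset.sum_pair hn] at h1
    have c2 : κ (sg e α γ)⁻¹ = κ (sg e α γ) := kconst hκ (isConj_of_edg (edg_inv _))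
    rw [c2, ← mul_add, ← sv_eq] at h1
    rw [h1]
    exact if_congr hcyc rfl rfl

/-- the value at the full cycles is a constant -/
theorem sv_full {j : ℕ} (hj : 1 ≤ j) (e : Fin (j + 1) ⊕ Fin (j + 1) ↪ V)
    (hS : 2 * (j + 1) ∈ S) (hF : Formula S κ D W f)
    (hκ : ∀ σ τ, κ (τ * σ * τ⁻¹) = κ σ) (hκ0 : ∀ σ, κ σ ≠ 0) :
    ∃ c : K, c ≠ 0 ∧ ∀ α γ : Perm (Fin (j + 1)), Full (γ⁻¹ * α) → sv f D W e α γ = c := by
  classical
  have hr : Full ((1 : Perm (Fin (j + 1)))⁻¹ * finRotate (j + 1)) := by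
    have h1 := (fam_full (t := 0) (j := j) (by omega) ∅).2 rfl
    have h2 : finRotate (j + 1) * Fam.u (t := 0) (k := j + 1) (by omega) ∅ =
        (1 : Perm (Fin (j + 1)))⁻¹ * finRotate (j + 1) := by
      ext x
      rw [Perm.mul_apply]
      have h3 : Fam.u (t := 0) (k := j + 1) (by omega) ∅ x = x := by
        apply Fin.ext
        rw [Fam.u_val, Fam.pn_empty]
      rw [h3]
      simp
    rw [← h2]
    exact h1
  refine ⟨(κ (sg e (finRotate (j + 1)) 1))⁻¹, inv_ne_zero (hκ0 _), fun α γ hf => ?_⟩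
  have h1 := sv_mono hj e hS hF hκ hκ0 (full_mono hf)
  rw [if_pos hf, kconst hκ (full_isConj e (by omega) hr hf)] at h1
  exact eq_inv_of_mul_eq_one_right h1

/-- first bound: weights symmetric or skew outside one vertex, characteristic not `2` -/
theorem bound_sym [FiniteDimensional K B] {j : ℕ} (hj : 1 ≤ j)
    (e : Fin (j + 1) ⊕ Fin (j + 1) ↪ V) (hS : 2 * (j + 1) ∈ S) (h2 : (2 : K) ≠ 0)
    (hF : Formula S κ D W f) (hκ : ∀ σ τ, κ (τ * σ * τ⁻¹) = κ σ) (hκ0 : ∀ σ, κ σ ≠ 0)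
    (ε : B) (i₀ : Fin (j + 1)) (hW : ∀ i j, i ≠ i₀ → W (e (Sum.inl i)) (e (Sum.inr j)) =
      ε * W (e (Sum.inr j)) (e (Sum.inl i))) :
    (2 * j).choose j ≤ 2 * Module.finrank K B := by
  classical
  obtain ⟨c, hc, hfull⟩ := sv_full hj e hS hF hκ hκ0
  have hzero : ∀ α γ : Perm (Fin (j + 1)), ¬ Full (γ⁻¹ * α) → sv f D W e α γ = 0 := by
    intro α γ hn
    have h3 := twice e hF hκ α γ (by
      intro σ hσ
      obtain ⟨α', γ', rfl, hp⟩ := class_form e α γ hσ
      rw [sg_inv, wt_sg, wt_sg, ← map_add, wt_class e D W ε i₀ hW hp, map_add, sv])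
    rw [if_neg (fun hcy => hn (full_of_cycSet e S hcy)), mul_zero] at h3
    obtain ⟨d, hd⟩ := card_class (sg e α γ)
    have h4 : ((#(univ.filter fun σ : Perm V => edg σ = edg (sg e α γ)) : ℕ) : K) ≠ 0 := by
      rw [hd]
      push_cast
      exact pow_ne_zero _ h2
    rcases mul_eq_zero.1 h3 with h5 | h5
    · rcases mul_eq_zero.1 h5 with h6 | h6
      · exact absurd h6 (hκ0 _)
      · exact absurd h6 h4
    · exact h5
  exact (rank_full h2 c hc (Matrix.of fun α γ => sv f D W e α γ) (fun α γ h => hfull α γ h)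
    (fun α γ h => hzero α γ h)).trans
    (rank_le f (fa D W e) (fc W e) (fc W e) (fa D W e) |>.trans' (le_of_eq (by
      congr 1
      ext α γ
      simp only [Matrix.of_apply, sv]
      rw [mul_comm (fc W e α) (fa D W e γ)])))

/-- second bound: arbitrary weights -/
theorem bound_arb [FiniteDimensional K B] {j t : ℕ} (hj : 1 ≤ j) (ht : 2 * t ≤ j + 1)
    (e : Fin (j + 1) ⊕ Fin (j + 1) ↪ V) (hS : 2 * (j + 1) ∈ S)
    (hF : Formula S κ D W f) (hκ : ∀ σ τ, κ (τ * σ * τ⁻¹) = κ σ) (hκ0 : ∀ σ, κ σ ≠ 0) :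
    2 ^ t ≤ 2 * Module.finrank K B := by
  classical
  obtain ⟨c, hc, hfull⟩ := sv_full hj e hS hF hκ hκ0
  set al : Finset (Fin t) → Perm (Fin (j + 1)) := fun A => Fam.u ht A with hal
  set ga : Finset (Fin t) → Perm (Fin (j + 1)) := fun A => Fam.u ht A * (finRotate (j + 1))⁻¹
    with hga
  have hq : ∀ A A', (ga A')⁻¹ * al A = finRotate (j + 1) * Fam.u ht (symmDiff A A') :=
    fun A A' => fam_quot ht A A'
  have hval : ∀ A A', sv f D W e (al A) (ga A') = if A = A' then c else 0 := by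
    intro A A'
    by_cases hAA : A = A'
    · rw [if_pos hAA]
      apply hfull
      rw [hq, fam_full, hAA, symmDiff_self]
      rfl
    · rw [if_neg hAA]
      have h1 := sv_mono hj e hS hF hκ hκ0 (α := al A) (γ := ga A') (by
        rw [hq]; exact fam_mono ht _)
      rw [if_neg, mul_eq_zero] at h1
      · exact h1.resolve_left (hκ0 _)
      · rw [hq, fam_full]
        intro h2
        exact hAA (symmDiff_eq_bot.1 h2)
  have hr := rank_le f (fun A => fa D W e (al A)) (fun A => fc W e (al A))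
    (fun A => fc W e (ga A)) (fun A => fa D W e (ga A))
  have hm : (Matrix.of fun A A' => f (fa D W e (al A) * fc W e (ga A')) +
      f (fc W e (al A) * fa D W e (ga A'))) = c • (1 : Matrix (Finset (Fin t)) _ K) := by
    ext A A'
    have h1 := hval A A'
    rw [sv] at h1
    rw [Matrix.of_apply, mul_comm (fc W e (al A)), h1, Matrix.smul_apply, Matrix.one_apply]
    split_ifs <;> simp
  rw [hm] at hr
  have h3 : (c • (1 : Matrix (Finset (Fin t)) (Finset (Fin t)) K)).rank = 2 ^ t := by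
    rw [Matrix.rank_smul_of_mem_nonZeroDivisors _ (mem_nonZeroDivisors_of_ne_zero hc),
      Matrix.rank_one]
    simp
  omega

end

end Pool.Agent.MP_b35d54_lc.Db
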