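import Pool.Agent.Lib.MP_b35d54_lc_Db.Cdet

/-!
# Determinant sums: the value of the determinant that detects full cycles
-/

namespace Pool.Agent.MP_b35d54_lc.Db

open Equiv Equiv.Perm Finset

noncomputable section

theorem Val.inv_self {j : ℕ} (γ : Perm (Fin (j + 1))) (x : Fin (j + 1)) : γ⁻¹ (γ x) = x :=
  γ.symm_apply_apply x

/-- Let `τ = γ⁻¹ * α`, not a full cycle: there is a nonempty set `A ∌ 0` invariant under `τ` (the
orbit of a point which is not in the orbit of `0`).  The vector `∑ i ∈ A, e_{γ i}` has the scalar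
product `1_A (τ i) - 1_A i = 0` with every row `i ≠ 0`.  With row `0`: `e_0` has the scalar product
`c = 1_A (γ⁻¹ 0)` with it; if `c = 1` replace `A` by its complement `A'` intersected with ... :
simpler: add the multiple `- c` of the all ones vector, which is orthogonal to all rows `i ≠ 0` and
has scalar product `1` with `e_0`.  The resulting vector is `(1_A (γ⁻¹ x) - c)_x`; it is not zero
because `A` is neither empty nor everything.  So the determinant vanishes
(`Matrix.exists_mulVec_eq_zero_iff`). -/
theorem cdet_not_full (K : Type*) [Field K] {j : ℕ} (α γ : Perm (Fin (j + 1)))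
    (h : ¬ Full (γ⁻¹ * α)) : cdet K α γ = 0 := by
  classical
  obtain ⟨p, hp⟩ : ∃ p, ¬ (γ⁻¹ * α).SameCycle p 0 := by
    by_contra hcon
    push Not at hcon
    exact h fun x y => (hcon x).trans (hcon y).symm
  unfold cdet
  rw [← Matrix.exists_mulVec_eq_zero_iff]
  refine ⟨fun x => (if (γ⁻¹ * α).SameCycle p (γ⁻¹ x) then (1 : K) else 0) -
    (if (γ⁻¹ * α).SameCycle p (γ⁻¹ 0) then (1 : K) else 0), ?_, ?_⟩
  · intro h0
    have h1 := congrFun h0 (γ p)
    have h2 := congrFun h0 (γ 0)
    simp only [Val.inv_self, Pi.zero_apply, SameCycle.refl, if_true, if_neg hp] at h1 h2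
    have h3 : (1 : K) = 0 := by linear_combination h1 - h2
    exact one_ne_zero h3
  · funext i
    by_cases hi : i = 0
    · subst hi
      show (row0 _ 0) ⬝ᵥ _ = 0
      unfold row0
      rw [if_pos rfl, single_dotProduct, one_mul, sub_self]
    · show (row0 _ i) ⬝ᵥ _ = 0
      unfold row0
      rw [if_neg hi, sub_dotProduct, single_dotProduct, single_dotProduct, one_mul, one_mul,
        Val.inv_self]
      have h1 : (γ⁻¹ * α).SameCycle p (γ⁻¹ (α i)) ↔ (γ⁻¹ * α).SameCycle p i := by
        rw [← Perm.mul_apply]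
        exact sameCycle_apply_right
      simp only [h1]
      ring

namespace Val

/-- a permutation which moves the points only to their successors or not at all, with the fixed
point `0` -/
theorem eq_one {j : ℕ} {τ σ : Perm (Fin (j + 1))} (h : Full τ) (h0 : σ 0 = 0)
    (h1 : ∀ i, i ≠ 0 → σ i = τ i ∨ σ i = i) : σ = 1 := by
  by_contra hne
  obtain ⟨i, hi⟩ : ∃ i, σ i ≠ i := by
    by_contra hcon
    push Not at hcon
    exact hne (Equiv.ext hcon)
  have key : ∀ k : ℕ, σ ((τ ^ k) i) ≠ (τ ^ k) i := by
    intro k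
    induction k with
    | zero => simpa using hi
    | succ k ih =>
      have h2 : (τ ^ k) i ≠ 0 := fun h3 => ih (by rw [h3, h0])
      have h3 : σ ((τ ^ k) i) = (τ ^ (k + 1)) i := by
        rw [pow_succ', Perm.mul_apply]
        exact (h1 _ h2).resolve_right ih
      intro h4
      rw [← h3] at h4
      exact ih (σ.injective h4)
  obtain ⟨k, hk⟩ := (h i 0).exists_nat_pow_eq
  exact key k (by rw [hk, h0])

theorem full_ne {j : ℕ} {τ : Perm (Fin (j + 1))} (h : Full τ) {i : Fin (j + 1)} (hi : i ≠ 0) :
    τ i ≠ i := by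
  intro h1
  obtain ⟨k, hk⟩ := h i 0
  rw [zpow_apply_eq_self_of_apply_eq_self h1] at hk
  exact hi hk

theorem det_base (K : Type*) [Field K] {j : ℕ} {τ : Perm (Fin (j + 1))} (h : Full τ) :
    (row0 (K := K) fun i => Pi.single (τ i) (1 : K) - Pi.single i 1).det = (-1) ^ j := by
  rw [← Matrix.det_transpose, Matrix.det_apply, sum_eq_single (1 : Perm (Fin (j + 1)))]
  · rw [Perm.sign_one, one_smul, Fin.prod_univ_succ]
    have h1 : (row0 (K := K) fun i => Pi.single (τ i) (1 : K) - Pi.single i 1).transpose
        ((1 : Perm (Fin (j + 1))) 0) 0 = 1 := by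
      simp [row0, Matrix.transpose]
    have h2 : ∀ i : Fin j, (row0 (K := K) fun i => Pi.single (τ i) (1 : K) - Pi.single i 1).transpose
        ((1 : Perm (Fin (j + 1))) i.succ) i.succ = -1 := by
      intro i
      have h3 : i.succ ≠ 0 := Fin.succ_ne_zero i
      have h4 := full_ne h h3
      simp [row0, Matrix.transpose, h3, h4.symm]
    rw [h1, one_mul, prod_congr rfl fun i _ => h2 i, prod_const, card_univ, Fintype.card_fin]
  · intro σ _ hσ
    have h5 : ∏ i, (row0 (K := K) fun i => Pi.single (τ i) (1 : K) - Pi.single i 1).transpose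
        (σ i) i = 0 := by
      by_contra h6
      rw [← ne_eq, prod_ne_zero_iff] at h6
      refine hσ (eq_one h ?_ fun i hi => ?_)
      · have h7 := h6 0 (mem_univ _)
        by_contra h8
        apply h7
        simp [row0, Matrix.transpose, h8]
      · have h7 := h6 i (mem_univ _)
        by_contra h8
        push Not at h8
        apply h7
        simp [row0, Matrix.transpose, hi, h8.1, h8.2]
    rw [h5, smul_zero]
  · intro h1
    exact absurd (mem_univ _) h1

theorem det_any (K : Type*) [Field K] {j : ℕ} (τ : Perm (Fin (j + 1))) (c : Fin (j + 1)) :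
    (Matrix.of fun i : Fin (j + 1) => if i = 0 then Pi.single c (1 : K) else
      Pi.single (τ i) (1 : K) - Pi.single i 1).det =
    (row0 (K := K) fun i => Pi.single (τ i) (1 : K) - Pi.single i 1).det := by
  obtain ⟨B, hB⟩ : ∃ B : Matrix (Fin (j + 1)) (Fin (j + 1)) K,
      B = Matrix.of fun i => Pi.single (τ i) (1 : K) - Pi.single i 1 := ⟨_, rfl⟩
  have h1 : (Matrix.of fun i : Fin (j + 1) => if i = 0 then Pi.single c (1 : K) else
      Pi.single (τ i) (1 : K) - Pi.single i 1) = B.updateRow 0 (Pi.single c 1) := by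
    ext i x
    by_cases hi : i = 0
    · subst hi
      simp [Matrix.updateRow_self]
    · simp [hi, hB]
  have h2 : (row0 (K := K) fun i => Pi.single (τ i) (1 : K) - Pi.single i 1) =
      B.updateRow 0 (Pi.single 0 1) := by
    ext i x
    by_cases hi : i = 0
    · subst hi
      simp [Matrix.updateRow_self, row0]
    · simp [hi, hB, row0]
  have h3 : (Pi.single c (1 : K) : Fin (j + 1) → K) =
      Pi.single 0 1 + (Pi.single c 1 - Pi.single 0 1) := by
    rw [add_sub_cancel]
  rw [h1, h2, h3, Matrix.det_updateRow_add]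
  have h4 : (B.updateRow 0 (Pi.single c 1 - Pi.single 0 1)).det = 0 := by
    rw [← Matrix.exists_mulVec_eq_zero_iff]
    refine ⟨fun _ => 1, fun h => one_ne_zero (congrFun h 0), ?_⟩
    funext i
    by_cases hi : i = 0
    · subst hi
      show (B.updateRow 0 (Pi.single c 1 - Pi.single 0 1)) 0 ⬝ᵥ _ = 0
      rw [Matrix.updateRow_self, sub_dotProduct, single_dotProduct, single_dotProduct, sub_self]
    · show (B.updateRow 0 (Pi.single c 1 - Pi.single 0 1)) i ⬝ᵥ _ = 0
      rw [Matrix.updateRow_ne hi, hB]
      show ((Pi.single (τ i) 1 - Pi.single i 1 : Fin (j + 1) → K)) ⬝ᵥ _ = 0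
      rw [sub_dotProduct, single_dotProduct, single_dotProduct, sub_self]
  rw [h4, add_zero]

end Val

/-- If `τ = γ⁻¹ * α` is a full cycle: `cdet K α γ = sign γ * det (row0 (e_{τ i} - e_i))`.
Step 1: the determinant of the matrix with rows `x i` of coordinate sum `0` for `i ≠ 0` and row `0`
equal to `e_c` does not depend on `c` (the difference of two such matrices in row `0` has all row
sums `0`, so the all ones vector is in its kernel); take `c = γ 0`; then the matrix is
`row0' (e_{τ i} - e_i)` with its columns permuted by `γ` (`Matrix.det_permute'`).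
Step 2: `det (row0 fun i => e_{τ i} - e_i) = (-1) ^ j`: for `τ` a full cycle order the points
`0, τ 0, τ² 0, ...`; or: let `N` be the matrix of `τ` with row `0` and column `0` deleted
(or row `0` replaced by zero), it is nilpotent because every point reaches `0`, so `det (1 - N) = 1`
(`Matrix.isNilpotent_charpoly_sub_pow_of_isNilpotent`). -/
theorem cdet_full (K : Type*) [Field K] {j : ℕ} (α γ : Perm (Fin (j + 1)))
    (h : Full (γ⁻¹ * α)) : cdet K α γ = (sign γ : ℤ) * (-1) ^ j := by
  have h1 := Matrix.det_permute' γ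
    (row0 (K := K) fun i => Pi.single (α i) (1 : K) - Pi.single (γ i) 1)
  have h2 : (row0 (K := K) fun i => Pi.single (α i) (1 : K) - Pi.single (γ i) 1).submatrix id γ =
      Matrix.of fun i : Fin (j + 1) => if i = 0 then Pi.single (γ⁻¹ 0) (1 : K) else
        Pi.single ((γ⁻¹ * α) i) (1 : K) - Pi.single i 1 := by
    have h3 : ∀ (a x : Fin (j + 1)), (Pi.single a (1 : K) : Fin (j + 1) → K) (γ x) =
        (Pi.single (γ⁻¹ a) (1 : K) : Fin (j + 1) → K) x := by
      intro a x
      rw [Pi.single_apply, Pi.single_apply]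
      have h4 : γ x = a ↔ x = γ⁻¹ a := (Perm.eq_inv_iff_eq).symm
      simp only [h4]
    ext i x
    by_cases hi : i = 0
    · subst hi
      simp only [Matrix.submatrix_apply, row0, if_true, Matrix.of_apply, id_eq]
      exact h3 _ _
    · simp only [Matrix.submatrix_apply, row0, hi, if_false, Matrix.of_apply, id_eq,
        Pi.sub_apply]
      rw [h3, h3, Val.inv_self, Perm.mul_apply]
  rw [h2, Val.det_any, Val.det_base K h] at h1
  unfold cdet
  have h5 : ((sign γ : ℤ) : K) * ((sign γ : ℤ) : K) = 1 := by
    rw [← Int.cast_mul, ← Units.val_mul, Int.units_mul_self, Units.val_one, Int.cast_one]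
  rw [h1, ← mul_assoc, h5, one_mul]

end

end Pool.Agent.MP_b35d54_lc.Db
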