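import Pool.Agent.Lib.MP_b35d54_lc_Db.Alt
import Pool.Agent.Lib.MP_b35d54_lc_Db.Val

/-!
# Determinant sums: the rank of the matrix of the full cycles
-/

namespace Pool.Agent.MP_b35d54_lc.Db

open Equiv Equiv.Perm Finset

noncomputable section

namespace Rank

/-- row `0` is `e_0`, row `i ≠ 0` is `e_{g i}` -/
def rdet (K : Type*) [Field K] {j : ℕ} (g : Fin (j + 1) → Fin (j + 1)) : K :=
  (row0 fun i => Pi.single (g i) (1 : K)).det

theorem pdet_eq (K : Type*) [Field K] {j : ℕ} (A : Finset (Fin (j + 1)))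
    (α γ : Perm (Fin (j + 1))) :
    pdet K A α γ = rdet K (fun i => if i ∈ A then α i else γ i) := by
  unfold pdet rdet
  congr 2
  funext i
  by_cases hi : i ∈ A <;> simp [hi]

theorem rdet_congr (K : Type*) [Field K] {j : ℕ} {g g' : Fin (j + 1) → Fin (j + 1)}
    (h : ∀ i, i ≠ 0 → g i = g' i) : rdet K g = rdet K g' := by
  unfold rdet
  congr 1
  funext i
  unfold row0
  split_ifs with hi
  · rfl
  · show (Pi.single (g i) (1 : K) : Fin (j + 1) → K) = Pi.single (g' i) 1
    rw [h i hi]

theorem rdet_zero (K : Type*) [Field K] {j : ℕ} {g : Fin (j + 1) → Fin (j + 1)}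
    {i : Fin (j + 1)} (hi : i ≠ 0) (h : g i = 0) : rdet K g = 0 := by
  unfold rdet
  refine Matrix.det_zero_of_row_eq hi ?_
  unfold row0
  rw [if_neg hi, if_pos rfl]
  show (Pi.single (g i) (1 : K) : Fin (j + 1) → K) = Pi.single 0 1
  rw [h]

theorem rdet_eq (K : Type*) [Field K] {j : ℕ} {g : Fin (j + 1) → Fin (j + 1)}
    {i i' : Fin (j + 1)} (hi : i ≠ 0) (hi' : i' ≠ 0) (hii : i ≠ i') (h : g i = g i') :
    rdet K g = 0 := by
  unfold rdet
  refine Matrix.det_zero_of_row_eq hii ?_
  unfold row0
  rw [if_neg hi, if_neg hi']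
  show (Pi.single (g i) (1 : K) : Fin (j + 1) → K) = Pi.single (g i') 1
  rw [h]

theorem rdet_swap (K : Type*) [Field K] {j : ℕ} {g g' : Fin (j + 1) → Fin (j + 1)}
    {x y : Fin (j + 1)} (hx : x ≠ 0) (hy : y ≠ 0) (hxy : x ≠ y)
    (h : ∀ i, i ≠ 0 → g' i = g (swap x y i)) : rdet K g' = - rdet K g := by
  have h1 : (row0 fun i => Pi.single (g' i) (1 : K)) =
      (row0 fun i => Pi.single (g i) (1 : K)).submatrix (swap x y) id := by
    funext i
    show row0 (K := K) (fun i => Pi.single (g' i) (1 : K)) i =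
      row0 (K := K) (fun i => Pi.single (g i) (1 : K)) (swap x y i)
    unfold row0
    by_cases hi : i = 0
    · subst hi
      rw [swap_apply_of_ne_of_ne hx.symm hy.symm]
      simp
    · have h2 : swap x y i ≠ 0 := by
        intro h3
        apply hi
        rw [← swap_apply_of_ne_of_ne hx.symm hy.symm] at h3
        exact (swap x y).injective h3
      rw [if_neg hi, if_neg h2]
      show (Pi.single (g' i) (1 : K) : Fin (j + 1) → K) = Pi.single (g (swap x y i)) 1
      rw [h i hi]
  unfold rdet
  rw [h1, Matrix.det_permute, Perm.sign_swap hxy]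
  simp

theorem rdet_perm (K : Type*) [Field K] {j : ℕ} {g : Fin (j + 1) → Fin (j + 1)}
    (θ : Perm (Fin (j + 1))) (h0 : θ 0 = 0) (h : ∀ i, i ≠ 0 → g i = θ i) : rdet K g ≠ 0 := by
  have h1 : (row0 fun i => Pi.single (g i) (1 : K)) =
      (1 : Matrix (Fin (j + 1)) (Fin (j + 1)) K).submatrix θ id := by
    funext i
    have h2 : (1 : Matrix (Fin (j + 1)) (Fin (j + 1)) K).submatrix θ id i =
        Pi.single (θ i) (1 : K) := by
      funext l
      rw [Matrix.submatrix_apply, Matrix.one_apply, Pi.single_apply, id]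
      simp only [eq_comm]
    rw [h2]
    unfold row0
    by_cases hi : i = 0
    · rw [if_pos hi, hi, h0]
    · rw [if_neg hi]
      show (Pi.single (g i) (1 : K) : Fin (j + 1) → K) = Pi.single (θ i) 1
      rw [h i hi]
  unfold rdet
  rw [h1, Matrix.det_permute, Matrix.det_one, mul_one]
  rcases Int.units_eq_one_or (sign θ) with h3 | h3 <;> rw [h3] <;> simp

/-- a permutation with the fixed point `0` which maps `R` to `L` -/
theorem exists_perm {j : ℕ} (R L : Finset (Fin (j + 1))) (hR : 0 ∉ R) (hL : 0 ∉ L)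
    (h : #R = #L) : ∃ θ : Perm (Fin (j + 1)), θ 0 = 0 ∧ ∀ i ∈ R, θ i ∈ L := by
  have h1 : Fintype.card {x // x ∈ R} = Fintype.card {x // x ∈ L} := by
    rw [Fintype.card_coe, Fintype.card_coe, h]
  let e : {x // x ∈ R} ≃ {x // x ∈ L} := Fintype.equivOfCardEq h1
  let θ' : Perm (Fin (j + 1)) := e.extendSubtype
  have h2 : ∀ i ∈ R, θ' i ∈ L := fun i hi => e.extendSubtype_mem i hi
  refine ⟨swap (θ' 0) 0 * θ', ?_, fun i hi => ?_⟩
  · rw [Perm.mul_apply, swap_apply_left]
  · have h3 : θ' i ≠ θ' 0 := by
      intro h4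
      have h5 := θ'.injective h4
      exact hR (h5 ▸ hi)
    have h4 : θ' i ≠ 0 := by
      intro h5
      exact hL (h5 ▸ h2 i hi)
    rw [Perm.mul_apply, swap_apply_of_ne_of_ne h3 h4]
    exact h2 i hi

theorem app_inv {j : ℕ} (θ : Perm (Fin (j + 1))) (x : Fin (j + 1)) : θ (θ⁻¹ x) = x :=
  θ.apply_symm_apply x

/-- two different images: two equal rows -/
theorem rows {j : ℕ} {R L L' : Finset (Fin (j + 1))} (hR : 0 ∉ R) (hL : 0 ∉ L)
    (h : #R = #L) (h' : #R = #L') (hne : L' ≠ L) {θ θ' : Perm (Fin (j + 1))}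
    (h0' : θ' 0 = 0) (hθ : ∀ i ∈ R, θ i ∈ L) (hθ' : ∀ i ∈ R, θ' i ∈ L') :
    ∃ i i', i ∈ R ∧ i' ∉ R ∧ i ≠ 0 ∧ i' ≠ 0 ∧ θ i = θ' i' := by
  have h1 : ¬ L ⊆ L' := by
    intro h2
    exact hne (Finset.eq_of_subset_of_card_le h2 (by omega)).symm
  obtain ⟨l, hl, hl'⟩ := Finset.not_subset.1 h1
  have h2 : R.image θ = L := by
    refine Finset.eq_of_subset_of_card_le (Finset.image_subset_iff.2 hθ) ?_
    rw [Finset.card_image_of_injective _ θ.injective, h]
  rw [← h2] at hl
  obtain ⟨i, hi, hil⟩ := Finset.mem_image.1 hl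
  refine ⟨i, θ'⁻¹ l, hi, ?_, ?_, ?_, ?_⟩
  · intro h3
    apply hl'
    have h4 := hθ' _ h3
    rwa [app_inv] at h4
  · rintro rfl
    exact hR hi
  · intro h3
    have h4 : l = 0 := by
      rw [← h0', ← h3, app_inv]
    rw [h4] at hl
    rw [h2] at hl
    exact hL hl
  · rw [app_inv, hil]

end Rank

/-- `∑ C(j, i)² = C(2 j, j)`: the number of pairs of subsets of the same size of the nonzero rows
and of the nonzero columns. -/
theorem card_pairs (j : ℕ) :
    Fintype.card {p : Finset (Fin (j + 1)) × Finset (Fin (j + 1)) // (0 ∉ p.1 ∧ 0 ∉ p.2) ∧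
      #p.1 = #p.2} = (2 * j).choose j := by
  have h0 : Fintype.card {p : Finset (Fin (j + 1)) × Finset (Fin (j + 1)) //
      (0 ∉ p.1 ∧ 0 ∉ p.2) ∧ #p.1 = #p.2} = #(((univ : Finset (Fin (j + 1))).erase 0).powerset.sigma
        fun A => powersetCard (#A) ((univ : Finset (Fin (j + 1))).erase 0)) := by
    rw [Fintype.card_subtype]
    refine Finset.card_bij' (fun p _ => ⟨p.1, p.2⟩) (fun q _ => (q.1, q.2)) ?_ ?_ ?_ ?_
    · rintro ⟨A, B⟩ hp
      rw [Finset.mem_filter] at hp
      rw [Finset.mem_sigma, Finset.mem_powerset, Finset.mem_powersetCard]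
      refine ⟨fun i hi => Finset.mem_erase.2 ⟨?_, Finset.mem_univ _⟩,
        fun i hi => Finset.mem_erase.2 ⟨?_, Finset.mem_univ _⟩, hp.2.2.symm⟩
      · rintro rfl
        exact hp.2.1.1 hi
      · rintro rfl
        exact hp.2.1.2 hi
    · rintro ⟨A, B⟩ hp
      rw [Finset.mem_sigma, Finset.mem_powerset, Finset.mem_powersetCard] at hp
      rw [Finset.mem_filter]
      exact ⟨Finset.mem_univ _, ⟨fun h => (Finset.mem_erase.1 (hp.1 h)).1 rfl,
        fun h => (Finset.mem_erase.1 (hp.2.1 h)).1 rfl⟩, hp.2.2.symm⟩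
    · intro p _
      rfl
    · intro q _
      rfl
  rw [h0, Finset.card_sigma]
  have h1 : #((univ : Finset (Fin (j + 1))).erase 0) = j := by
    rw [Finset.card_erase_of_mem (Finset.mem_univ _), Finset.card_univ, Fintype.card_fin,
      Nat.add_sub_cancel]
  have h2 : ∀ A ∈ ((univ : Finset (Fin (j + 1))).erase 0).powerset,
      #(powersetCard (#A) ((univ : Finset (Fin (j + 1))).erase 0)) =
        (fun m => j.choose m) (#A) := by
    intro A _
    rw [Finset.card_powersetCard, h1]
  rw [Finset.sum_congr rfl h2, Finset.sum_powerset_apply_card, h1, ← Nat.sum_range_choose_sq]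
  refine Finset.sum_congr rfl fun m _ => ?_
  rw [smul_eq_mul, sq]

/-- If `∑ γ, cdet α γ * x γ = 0` for all `α` then `∑ γ, pdet A α γ * x γ = 0` for all `A ∌ 0` and
all `α`: `alt_zero` for `h A α = (-1) ^ (j - #A) * ∑ γ, pdet A α γ * x γ` and `cdet_expand`. -/
theorem ker_pdet {K : Type*} [Field K] (h2 : (2 : K) ≠ 0) {j : ℕ} (x : Perm (Fin (j + 1)) → K)
    (hx : ∀ α, ∑ γ, cdet K α γ * x γ = 0) :
    ∀ A ⊆ (univ : Finset (Fin (j + 1))).erase 0, ∀ α, ∑ γ, pdet K A α γ * x γ = 0 := by
  intro A hA α
  have key := alt_zero h2 (fun A α => if 0 ∈ A then 0 else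
    (-1) ^ (j - #A) * ∑ γ, pdet K A α γ * x γ) ?_ ?_ ?_ ?_ A hA α
  · have h0 : (0 : Fin (j + 1)) ∉ A := fun h => (Finset.mem_erase.1 (hA h)).1 rfl
    simp only [if_neg h0] at key
    rcases mul_eq_zero.1 key with h3 | h3
    · exact absurd h3 (pow_ne_zero _ (neg_ne_zero.2 one_ne_zero))
    · exact h3
  · intro A α α' h
    split_ifs with h0
    · rfl
    · congr 1
      refine Finset.sum_congr rfl fun γ _ => ?_
      rw [Rank.pdet_eq, Rank.pdet_eq]
      congr 1
      refine Rank.rdet_congr K fun i _ => ?_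
      split_ifs with hi
      · exact h i hi
      · rfl
  · intro A α i hi h
    split_ifs with h0
    · rfl
    · rw [Finset.sum_eq_zero, mul_zero]
      intro γ _
      have hi0 : i ≠ 0 := by
        rintro rfl
        exact h0 hi
      rw [Rank.pdet_eq, Rank.rdet_zero K hi0, zero_mul]
      rw [if_pos hi, h]
  · intro A α u v hu hv huv
    split_ifs with h0
    · rw [neg_zero]
    · rw [← mul_neg, ← Finset.sum_neg_distrib]
      congr 1
      refine Finset.sum_congr rfl fun γ _ => ?_
      have hu0 : u ≠ 0 := by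
        rintro rfl
        exact h0 hu
      have hv0 : v ≠ 0 := by
        rintro rfl
        exact h0 hv
      rw [Rank.pdet_eq, Rank.pdet_eq, ← neg_mul]
      congr 1
      refine Rank.rdet_swap K hu0 hv0 huv fun i _ => ?_
      by_cases hiu : i = u
      · subst hiu
        rw [swap_apply_left, if_pos hu, if_pos hv, Perm.mul_apply, swap_apply_left]
      · by_cases hiv : i = v
        · subst hiv
          rw [swap_apply_right, if_pos hu, if_pos hv, Perm.mul_apply, swap_apply_right]
        · rw [swap_apply_of_ne_of_ne hiu hiv, Perm.mul_apply, swap_apply_of_ne_of_ne hiu hiv]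
  · intro α
    refine Eq.trans ?_ (hx α)
    have h3 : ∀ γ, cdet K α γ * x γ = ∑ A ∈ ((univ : Finset (Fin (j + 1))).erase 0).powerset,
        (-1) ^ (j - #A) * (pdet K A α γ * x γ) := by
      intro γ
      rw [cdet_expand, Finset.sum_mul]
      refine Finset.sum_congr rfl fun A _ => ?_
      ring
    rw [Finset.sum_congr rfl fun γ _ => h3 γ, Finset.sum_comm]
    refine Finset.sum_congr rfl fun A hA => ?_
    have h0 : (0 : Fin (j + 1)) ∉ A := fun h =>
      (Finset.mem_erase.1 ((Finset.mem_powerset.1 hA) h)).1 rfl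
    rw [if_neg h0, Finset.mul_sum]

/-- Choose for every pair `(R, L)` of subsets of the nonzero rows and columns of the same size a
permutation `θ` with `θ 0 = 0`, `θ '' R = L`.  The functionals `x ↦ ∑ γ, pdet Rᶜ θ γ * x γ` (the
rows in `R` are `e_{γ i}`, the other nonzero rows are `e_{θ i}`) are linearly independent:
if `∑ (R, L), c (R, L) * pdet Rᶜ θ_{R,L} γ = 0` for all `γ` use `alt_zero` for
`h R γ = ∑ L, c (R, L) * pdet Rᶜ θ_{R,L} γ`; then put `γ = θ_{R,L}`: `pdet Rᶜ θ_{R,L'} θ_{R,L} = 0`
for `L' ≠ L` (two equal rows) and `± 1` for `L' = L`.  Here `Rᶜ` may be replaced by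
`univ.erase 0 \ R`.
So the linear map `T : (Perm → K) → (pairs → K)` is surjective, its kernel contains the kernel of
the matrix by `ker_pdet`, `cdet_full`, `cdet_not_full` (replace `x γ` by `sign γ * x γ`), hence the
rank is at least the number of pairs, `card_pairs`. -/
theorem rank_full {K : Type*} [Field K] (h2 : (2 : K) ≠ 0) {j : ℕ} (c : K) (hc : c ≠ 0)
    (M : Matrix (Perm (Fin (j + 1))) (Perm (Fin (j + 1))) K)
    (hM : ∀ α γ, Full (γ⁻¹ * α) → M α γ = c) (hM' : ∀ α γ, ¬ Full (γ⁻¹ * α) → M α γ = 0) :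
    (2 * j).choose j ≤ M.rank := by
  classical
  let P : Type := {p : Finset (Fin (j + 1)) × Finset (Fin (j + 1)) // (0 ∉ p.1 ∧ 0 ∉ p.2) ∧
      #p.1 = #p.2}
  have hθ : ∀ p : P, ∃ θ : Perm (Fin (j + 1)), θ 0 = 0 ∧ ∀ i ∈ p.1.1, θ i ∈ p.1.2 := fun p =>
    Rank.exists_perm p.1.1 p.1.2 p.2.1.1 p.2.1.2 p.2.2
  choose θ hθ0 hθ1 using hθ
  let U : Finset (Fin (j + 1)) := (univ : Finset (Fin (j + 1))).erase 0
  let N : Matrix P (Perm (Fin (j + 1))) K := Matrix.of fun p γ => pdet K (U \ p.1.1) (θ p) γ
  -- the rows of `N` are linearly independent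
  have hli : ∀ d : P → K, (∀ γ, ∑ p, d p * N p γ = 0) → d = 0 := by
    intro d hd
    have hz := alt_zero h2 (fun R γ => if 0 ∈ R then 0 else
      ∑ p : P, if p.1.1 = R then d p * pdet K (U \ R) (θ p) γ else 0) ?_ ?_ ?_ ?_
    · funext q
      have hq := hz q.1.1 (fun i hi => Finset.mem_erase.2 ⟨fun h => q.2.1.1 (h ▸ hi),
        Finset.mem_univ _⟩) (θ q)
      simp only [if_neg q.2.1.1] at hq
      rw [Finset.sum_eq_single q] at hq
      · rw [if_pos rfl] at hq
        rcases mul_eq_zero.1 hq with h3 | h3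
        · exact h3
        · exfalso
          rw [Rank.pdet_eq] at h3
          refine Rank.rdet_perm K (θ q) (hθ0 q) (fun i _ => ?_) h3
          split_ifs <;> rfl
      · intro p _ hpq
        split_ifs with hpR
        · have hne : p.1.2 ≠ q.1.2 := by
            intro h3
            apply hpq
            exact Subtype.ext (Prod.ext hpR h3)
          obtain ⟨i, i', hi, hi', hi0, hi0', he⟩ := Rank.rows (R := q.1.1) (L := q.1.2)
            (L' := p.1.2) q.2.1.1 q.2.1.2 q.2.2 (by rw [← hpR]; exact p.2.2) hne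
            (θ := θ q) (θ' := θ p) (hθ0 p) (hθ1 q) (by rw [← hpR]; exact hθ1 p)
          have hii : i ≠ i' := by
            rintro rfl
            exact hi' hi
          rw [Rank.pdet_eq, Rank.rdet_eq K hi0 hi0' hii, mul_zero]
          have h4 : i ∉ U \ q.1.1 := fun h => (Finset.mem_sdiff.1 h).2 hi
          have h5 : i' ∈ U \ q.1.1 := Finset.mem_sdiff.2
            ⟨Finset.mem_erase.2 ⟨hi0', Finset.mem_univ _⟩, hi'⟩
          rw [if_neg h4, if_pos h5, he]
        · rfl
      · intro h
        exact absurd (Finset.mem_univ _) h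
    · intro R γ γ' h
      split_ifs with h0
      · rfl
      · refine Finset.sum_congr rfl fun p _ => ?_
        split_ifs
        · rw [Rank.pdet_eq, Rank.pdet_eq]
          congr 1
          refine Rank.rdet_congr K fun i hi0 => ?_
          split_ifs with hi
          · rfl
          · refine h i ?_
            by_contra hiR
            exact hi (Finset.mem_sdiff.2 ⟨Finset.mem_erase.2 ⟨hi0, Finset.mem_univ _⟩, hiR⟩)
        · rfl
    · intro R γ i hi h
      split_ifs with h0
      · rfl
      · refine Finset.sum_eq_zero fun p _ => ?_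
        split_ifs
        · have hi0 : i ≠ 0 := by
            rintro rfl
            exact h0 hi
          have h4 : i ∉ U \ R := fun h => (Finset.mem_sdiff.1 h).2 hi
          rw [Rank.pdet_eq, Rank.rdet_zero K hi0, mul_zero]
          rw [if_neg h4, h]
        · rfl
    · intro R γ u v hu hv huv
      split_ifs with h0
      · rw [neg_zero]
      · rw [← Finset.sum_neg_distrib]
        refine Finset.sum_congr rfl fun p _ => ?_
        split_ifs
        · have hu0 : u ≠ 0 := by
            rintro rfl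
            exact h0 hu
          have hv0 : v ≠ 0 := by
            rintro rfl
            exact h0 hv
          have h4 : u ∉ U \ R := fun h => (Finset.mem_sdiff.1 h).2 hu
          have h5 : v ∉ U \ R := fun h => (Finset.mem_sdiff.1 h).2 hv
          rw [Rank.pdet_eq, Rank.pdet_eq, ← mul_neg]
          congr 1
          refine Rank.rdet_swap K hu0 hv0 huv fun i _ => ?_
          by_cases hiu : i = u
          · subst hiu
            rw [swap_apply_left, if_neg h4, if_neg h5, Perm.mul_apply, swap_apply_left]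
          · by_cases hiv : i = v
            · subst hiv
              rw [swap_apply_right, if_neg h4, if_neg h5, Perm.mul_apply, swap_apply_right]
            · rw [swap_apply_of_ne_of_ne hiu hiv, Perm.mul_apply,
                swap_apply_of_ne_of_ne hiu hiv]
        · rw [neg_zero]
    · intro γ
      refine Eq.trans ?_ (hd γ)
      have h3 : ∀ R ∈ U.powerset, (if 0 ∈ R then (0 : K) else
          ∑ p : P, if p.1.1 = R then d p * pdet K (U \ R) (θ p) γ else 0) =
          ∑ p : P, if p.1.1 = R then d p * N p γ else 0 := by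
        intro R hR
        have h0 : (0 : Fin (j + 1)) ∉ R := fun h =>
          (Finset.mem_erase.1 ((Finset.mem_powerset.1 hR) h)).1 rfl
        rw [if_neg h0]
        refine Finset.sum_congr rfl fun p _ => ?_
        split_ifs with hp
        · rw [← hp]
          rfl
        · rfl
      rw [Finset.sum_congr rfl h3, Finset.sum_comm]
      refine Finset.sum_congr rfl fun p _ => ?_
      rw [Finset.sum_ite_eq, if_pos]
      rw [Finset.mem_powerset]
      intro i hi
      exact Finset.mem_erase.2 ⟨fun h => p.2.1.1 (h ▸ hi), Finset.mem_univ _⟩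
  -- the linear maps
  let S : (Perm (Fin (j + 1)) → K) →ₗ[K] (Perm (Fin (j + 1)) → K) :=
    { toFun := fun x γ => ((sign γ : ℤ) : K) * x γ
      map_add' := fun x y => by
        funext γ
        simp only [Pi.add_apply]
        ring
      map_smul' := fun a x => by
        funext γ
        simp only [Pi.smul_apply, smul_eq_mul, RingHom.id_apply]
        ring }
  have hsg : ∀ γ : Perm (Fin (j + 1)), ((sign γ : ℤ) : K) * ((sign γ : ℤ) : K) = 1 := by
    intro γ
    rw [← Int.cast_mul, ← Units.val_mul, Int.units_mul_self, Units.val_one, Int.cast_one]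
  let T : (Perm (Fin (j + 1)) → K) →ₗ[K] (P → K) := N.mulVecLin.comp S
  have hker : LinearMap.ker M.mulVecLin ≤ LinearMap.ker T := by
    intro x hx
    rw [LinearMap.mem_ker] at hx ⊢
    have h3 : ∀ α, ∑ γ, cdet K α γ * S x γ = 0 := by
      intro α
      have h4 := congrFun hx α
      have h5 : ∑ γ, M α γ * x γ = 0 := h4
      have h6 : ∀ γ, cdet K α γ * S x γ = (-1) ^ j * c⁻¹ * (M α γ * x γ) := by
        intro γ
        change cdet K α γ * (((sign γ : ℤ) : K) * x γ) = _
        by_cases hf : Full (γ⁻¹ * α)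
        · rw [cdet_full K α γ hf, hM α γ hf]
          have h7 := hsg γ
          have h8 : c⁻¹ * c = 1 := inv_mul_cancel₀ hc
          linear_combination ((-1) ^ j * x γ) * h7 - ((-1) ^ j * x γ) * h8
        · rw [cdet_not_full K α γ hf, hM' α γ hf]
          ring
      rw [Finset.sum_congr rfl fun γ _ => h6 γ, ← Finset.mul_sum, h5, mul_zero]
    have h4 := ker_pdet h2 (S x) h3
    funext p
    change ∑ γ, N p γ * S x γ = 0
    exact h4 (U \ p.1.1) Finset.sdiff_subset (θ p)
  have hrT : Fintype.card P ≤ Module.finrank K (LinearMap.range T) := by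
    have hsurj : LinearMap.range T = ⊤ := by
      by_contra hne
      obtain ⟨f, hf, hfr⟩ := Submodule.exists_le_ker_of_lt_top _ (lt_top_iff_ne_top.2 hne)
      apply hf
      have h5 : (fun p => f (Pi.single p 1)) = 0 := by
        apply hli
        intro γ
        have h6 : T (Pi.single γ (((sign γ : ℤ) : K))) ∈ LinearMap.range T := ⟨_, rfl⟩
        have h7 : f (T (Pi.single γ (((sign γ : ℤ) : K)))) = 0 := hfr h6
        have h8 : T (Pi.single γ (((sign γ : ℤ) : K))) = fun p => N p γ := by
          funext p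
          change ∑ γ', N p γ' * (((sign γ' : ℤ) : K) *
            (Pi.single γ (((sign γ : ℤ) : K)) : Perm (Fin (j + 1)) → K) γ') = N p γ
          rw [Finset.sum_eq_single γ]
          · rw [Pi.single_eq_same, hsg, mul_one]
          · intro γ' _ hne
            rw [Pi.single_eq_of_ne hne, mul_zero, mul_zero]
          · intro h
            exact absurd (Finset.mem_univ _) h
        rw [h8] at h7
        rw [← h7]
        have h9 : (fun p => N p γ) = ∑ p, N p γ • (Pi.single p (1 : K) : P → K) := by
          funext p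
          rw [Finset.sum_apply, Finset.sum_eq_single p]
          · rw [Pi.smul_apply, Pi.single_eq_same, smul_eq_mul, mul_one]
          · intro p' _ hne
            rw [Pi.smul_apply, Pi.single_eq_of_ne (Ne.symm hne), smul_zero]
          · intro h
            exact absurd (Finset.mem_univ _) h
        rw [h9, map_sum]
        refine Finset.sum_congr rfl fun p _ => ?_
        rw [map_smul, smul_eq_mul, mul_comm]
      refine LinearMap.pi_ext fun p a => ?_
      have h6 := congrFun h5 p
      have h7 : (Pi.single p a : P → K) = a • Pi.single p (1 : K) := by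
        rw [← Pi.single_smul, smul_eq_mul, mul_one]
      rw [h7, map_smul, LinearMap.zero_apply]
      change a • f (Pi.single p 1) = 0
      change f (Pi.single p 1) = 0 at h6
      rw [h6, smul_zero]
    rw [hsurj, finrank_top, Module.finrank_fintype_fun_eq_card]
  have h5 := LinearMap.finrank_range_add_finrank_ker M.mulVecLin
  have h6 := LinearMap.finrank_range_add_finrank_ker T
  have h7 := Submodule.finrank_mono hker
  have h8 : M.rank = Module.finrank K (LinearMap.range M.mulVecLin) := rfl
  have h9 : Fintype.card P = (2 * j).choose j := card_pairs j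
  omega

end

end Pool.Agent.MP_b35d54_lc.Db
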