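import Pool.Agent.Lib.MP_b35d54_lc_Db.Cls

/-!
# Determinant sums: the permutations of two matchings
-/

namespace Pool.Agent.MP_b35d54_lc.Db

open Equiv Equiv.Perm Finset

noncomputable section

variable {V : Type} [Fintype V] [DecidableEq V] {k : ℕ} (e : Fin k ⊕ Fin k ↪ V)

theorem sg_inl (α γ : Perm (Fin k)) (i : Fin k) :
    sg e α γ (e (Sum.inl i)) = e (Sum.inr (α i)) := by
  unfold sg
  rw [viaEmbedding_apply]
  rfl

theorem sg_inr (α γ : Perm (Fin k)) (i : Fin k) :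
    sg e α γ (e (Sum.inr i)) = e (Sum.inl (γ⁻¹ i)) := by
  unfold sg
  rw [viaEmbedding_apply]
  rfl

theorem sg_out (α γ : Perm (Fin k)) {v : V} (hv : v ∉ Set.range e) : sg e α γ v = v := by
  unfold sg
  exact viaEmbedding_apply_of_notMem _ e v hv

namespace Sig

/-- three cases for a vertex -/
theorem cases3 (v : V) : (∃ i, v = e (Sum.inl i)) ∨ (∃ j, v = e (Sum.inr j)) ∨
    v ∉ Set.range e := by
  by_cases hv : v ∈ Set.range e
  · obtain ⟨x, hx⟩ := hv
    rcases x with i | j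
    · exact Or.inl ⟨i, hx.symm⟩
    · exact Or.inr (Or.inl ⟨j, hx.symm⟩)
  · exact Or.inr (Or.inr hv)

end Sig

theorem sg_inv (α γ : Perm (Fin k)) : (sg e α γ)⁻¹ = sg e γ α := by
  ext v
  rw [Perm.inv_eq_iff_eq]
  rcases Sig.cases3 e v with ⟨i, rfl⟩ | ⟨j, rfl⟩ | hv
  · rw [sg_inl, sg_inr, Cls.ia]
  · rw [sg_inr, sg_inl, Cls.ai]
  · rw [sg_out e γ α hv, sg_out e α γ hv]

namespace Sig

theorem lr (i j : Fin k) : e (Sum.inl i) ≠ e (Sum.inr j) := fun h =>
  Sum.inl_ne_inr (e.injective h)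

theorem rl (i j : Fin k) : e (Sum.inr i) ≠ e (Sum.inl j) := fun h =>
  Sum.inr_ne_inl (e.injective h)

open Classical in
/-- the colouring -/
theorem col (α γ : Perm (Fin k)) {u v : V} (huv : u ≠ v)
    (h : v = sg e α γ u ∨ v = (sg e α γ)⁻¹ u) :
    (if ∃ i, u = e (Sum.inl i) then (0 : Fin 2) else 1) ≠
      if ∃ i, v = e (Sum.inl i) then (0 : Fin 2) else 1 := by
  rw [sg_inv] at h
  rcases Sig.cases3 e u with ⟨i, rfl⟩ | ⟨j, rfl⟩ | hu
  · rw [sg_inl, sg_inl] at h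
    have h1 : ∃ j, v = e (Sum.inr j) := by
      rcases h with h | h
      · exact ⟨_, h⟩
      · exact ⟨_, h⟩
    obtain ⟨j, rfl⟩ := h1
    rw [if_pos ⟨i, rfl⟩, if_neg (fun ⟨l, hl⟩ => rl e j l hl)]
    decide
  · rw [sg_inr, sg_inr] at h
    have h1 : ∃ j, v = e (Sum.inl j) := by
      rcases h with h | h
      · exact ⟨_, h⟩
      · exact ⟨_, h⟩
    obtain ⟨i, rfl⟩ := h1
    rw [if_neg (fun ⟨l, hl⟩ => rl e j l hl), if_pos ⟨i, rfl⟩]
    decide
  · rw [sg_out e α γ hu, sg_out e γ α hu] at h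
    rcases h with h | h
    · exact absurd h.symm huv
    · exact absurd h.symm huv

end Sig

/-- all edges are between `e (inl i)` and `e (inr j)` -/
theorem sg_colorable (α γ : Perm (Fin k)) : (gr (edg (sg e α γ))).Colorable 2 := by
  classical
  refine ⟨SimpleGraph.Coloring.mk (fun u => if ∃ i, u = e (Sum.inl i) then (0 : Fin 2) else 1)
    ?_⟩
  intro u v h
  unfold gr at h
  rw [SimpleGraph.fromEdgeSet_adj, Finset.mem_coe, Cls.mem_edg] at h
  exact Sig.col e α γ h.2 h.1.2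

theorem wt_sg {B : Type*} [CommRing B] (D : V → B) (W : V → V → B) (α γ : Perm (Fin k)) :
    wt D W (sg e α γ) = fa D W e α * fc W e γ := by
  classical
  unfold wt fa fc
  rw [← Finset.prod_filter_mul_prod_filter_not univ (fun v => v ∉ Set.range e), mul_assoc]
  congr 1
  · refine Finset.prod_congr ?_ fun v hv => ?_
    · ext v
      simp only [mem_filter, mem_univ, true_and]
    · rw [if_pos (sg_out e α γ (mem_filter.1 hv).2)]
  · have h1 : (univ.filter fun v => ¬ v ∉ Set.range e) = univ.map e := by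
      ext v
      simp only [mem_filter, mem_univ, true_and, not_not, mem_map, Set.mem_range]
    rw [h1, Finset.prod_map, Fintype.prod_sum_type]
    congr 1
    · refine Finset.prod_congr rfl fun i _ => ?_
      rw [sg_inl, if_neg (Sig.rl e _ _)]
    · rw [← Equiv.prod_comp γ]
      refine Finset.prod_congr rfl fun i _ => ?_
      rw [sg_inr, Cls.ia, if_neg (Sig.lr e _ _)]

/-- a permutation with the same edges is of the same form (`edg_eq_iff`) -/
theorem class_form (α γ : Perm (Fin k)) {σ : Perm V} (h : edg σ = edg (sg e α γ)) :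
    ∃ α' γ' : Perm (Fin k), σ = sg e α' γ' ∧ ∀ i, s(α' i, γ' i) = s(α i, γ i) := by
  rw [edg_eq_iff, sg_inv] at h
  have h1 : ∀ i, (∃ j, σ (e (Sum.inl i)) = e (Sum.inr j)) ∧
      ∃ j, σ⁻¹ (e (Sum.inl i)) = e (Sum.inr j) := fun i => by
    have h2 := h (e (Sum.inl i))
    rw [sg_inl, sg_inl] at h2
    rcases Sym2.eq_iff.1 h2 with ⟨h3, h4⟩ | ⟨h3, h4⟩
    · exact ⟨⟨_, h3⟩, ⟨_, h4⟩⟩
    · exact ⟨⟨_, h3⟩, ⟨_, h4⟩⟩
  choose f hf using fun i => (h1 i).1
  choose g hg using fun i => (h1 i).2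
  have hfi : Function.Injective f := fun i j hij => by
    have h2 : σ (e (Sum.inl i)) = σ (e (Sum.inl j)) := by rw [hf, hf, hij]
    exact Sum.inl_injective (e.injective (σ.injective h2))
  have hgi : Function.Injective g := fun i j hij => by
    have h2 : σ⁻¹ (e (Sum.inl i)) = σ⁻¹ (e (Sum.inl j)) := by rw [hg, hg, hij]
    exact Sum.inl_injective (e.injective (σ⁻¹.injective h2))
  let α' : Perm (Fin k) := Equiv.ofBijective f (Finite.injective_iff_bijective.1 hfi)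
  let γ' : Perm (Fin k) := Equiv.ofBijective g (Finite.injective_iff_bijective.1 hgi)
  have hα' : ∀ i, α' i = f i := fun _ => rfl
  have hγ' : ∀ i, γ' i = g i := fun _ => rfl
  refine ⟨α', γ', ?_, fun i => ?_⟩
  · ext v
    rcases Sig.cases3 e v with ⟨i, rfl⟩ | ⟨j, rfl⟩ | hv
    · rw [sg_inl, hα', hf]
    · rw [sg_inr]
      have h2 : σ⁻¹ (e (Sum.inl (γ'⁻¹ j))) = e (Sum.inr j) := by
        rw [hg, ← hγ', Cls.ai]
      rw [← h2, Cls.ai]
    · have h2 := h v
      rw [sg_out e α γ hv, sg_out e γ α hv] at h2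
      rw [sg_out e α' γ' hv]
      rcases Sym2.eq_iff.1 h2 with ⟨h3, _⟩ | ⟨h3, _⟩
      · exact h3
      · exact h3
  · rw [hα', hγ']
    have h2 := h (e (Sum.inl i))
    rw [sg_inl, sg_inl, hf, hg] at h2
    rcases Sym2.eq_iff.1 h2 with ⟨h3, h4⟩ | ⟨h3, h4⟩
    · rw [Sum.inr_injective (e.injective h3), Sum.inr_injective (e.injective h4)]
    · rw [Sum.inr_injective (e.injective h3), Sum.inr_injective (e.injective h4)]
      exact Sym2.eq_swap

namespace Sig

/-- the product at the vertices other than `i₀` -/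
theorem split {B : Type*} [CommRing B] (D : V → B) (W : V → V → B) (ε : B) (i₀ : Fin k)
    (hW : ∀ i j, i ≠ i₀ → W (e (Sum.inl i)) (e (Sum.inr j)) =
      ε * W (e (Sum.inr j)) (e (Sum.inl i))) :
    ∃ c : B, ∀ α γ : Perm (Fin k), fa D W e α * fc W e γ =
      c * (∏ i ∈ univ.erase i₀, (ε * (W (e (Sum.inr (α i))) (e (Sum.inl i)) *
        W (e (Sum.inr (γ i))) (e (Sum.inl i))))) *
        (W (e (Sum.inl i₀)) (e (Sum.inr (α i₀))) * W (e (Sum.inr (γ i₀))) (e (Sum.inl i₀))) := by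
  classical
  refine ⟨∏ v ∈ univ.filter (fun v => v ∉ Set.range e), D v, fun α γ => ?_⟩
  have h0 : fa D W e α = (∏ v ∈ univ.filter (fun v => v ∉ Set.range e), D v) *
      ∏ i, W (e (Sum.inl i)) (e (Sum.inr (α i))) := by
    unfold fa
    congr 1
  rw [h0]
  unfold fc
  rw [mul_assoc, ← Finset.prod_mul_distrib, ← Finset.mul_prod_erase univ _ (mem_univ i₀)]
  have h1 : ∏ i ∈ univ.erase i₀, (W (e (Sum.inl i)) (e (Sum.inr (α i))) *
      W (e (Sum.inr (γ i))) (e (Sum.inl i))) =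
      ∏ i ∈ univ.erase i₀, (ε * (W (e (Sum.inr (α i))) (e (Sum.inl i)) *
        W (e (Sum.inr (γ i))) (e (Sum.inl i)))) :=
    Finset.prod_congr rfl fun i hi => by
      rw [hW i _ (Finset.ne_of_mem_erase hi), mul_assoc]
  rw [h1, mul_comm (W (e (Sum.inl i₀)) (e (Sum.inr (α i₀))) * _), mul_assoc]

/-- a symmetric expression in the two orientations -/
theorem symm_at {B : Type*} [CommRing B] (u v : Fin k → B) {a b a' b' : Fin k}
    (h : s(a', b') = s(a, b)) : u a' * v b' + u b' * v a' = u a * v b + u b * v a := by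
  rcases Sym2.eq_iff.1 h with ⟨h1, h2⟩ | ⟨h1, h2⟩
  · rw [h1, h2]
  · rw [h1, h2, add_comm]

theorem mul_at {B : Type*} [CommRing B] (v : Fin k → B) {a b a' b' : Fin k}
    (h : s(a', b') = s(a, b)) : v a' * v b' = v a * v b := by
  rcases Sym2.eq_iff.1 h with ⟨h1, h2⟩ | ⟨h1, h2⟩
  · rw [h1, h2]
  · rw [h1, h2, mul_comm]

end Sig

/-- if `W` is symmetric or skew up to the edges at `e (inl i₀)`, the sum of the weights of the two
orientations is the same for all permutations with the same edges: the factors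
`W (inl i) (inr (α i)) * W (inr (γ i)) (inl i)`, `i ≠ i₀`, depend on `s(α i, γ i)` only. -/
theorem wt_class {B : Type*} [CommRing B] (D : V → B) (W : V → V → B) (ε : B) (i₀ : Fin k)
    (hW : ∀ i j, i ≠ i₀ → W (e (Sum.inl i)) (e (Sum.inr j)) =
      ε * W (e (Sum.inr j)) (e (Sum.inl i)))
    {α γ α' γ' : Perm (Fin k)} (h : ∀ i, s(α' i, γ' i) = s(α i, γ i)) :
    fa D W e α' * fc W e γ' + fa D W e γ' * fc W e α' =
      fa D W e α * fc W e γ + fa D W e γ * fc W e α := by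
  obtain ⟨c, hc⟩ := Sig.split e D W ε i₀ hW
  rw [hc, hc, hc, hc]
  have h1 : ∀ α γ : Perm (Fin k),
      (∏ i ∈ univ.erase i₀, (ε * (W (e (Sum.inr (γ i))) (e (Sum.inl i)) *
        W (e (Sum.inr (α i))) (e (Sum.inl i))))) =
      ∏ i ∈ univ.erase i₀, (ε * (W (e (Sum.inr (α i))) (e (Sum.inl i)) *
        W (e (Sum.inr (γ i))) (e (Sum.inl i)))) := fun α γ =>
    Finset.prod_congr rfl fun i _ => by rw [mul_comm (W (e (Sum.inr (γ i))) _)]
  have h2 : (∏ i ∈ univ.erase i₀, (ε * (W (e (Sum.inr (α' i))) (e (Sum.inl i)) *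
        W (e (Sum.inr (γ' i))) (e (Sum.inl i))))) =
      ∏ i ∈ univ.erase i₀, (ε * (W (e (Sum.inr (α i))) (e (Sum.inl i)) *
        W (e (Sum.inr (γ i))) (e (Sum.inl i)))) :=
    Finset.prod_congr rfl fun i _ => by
      rw [Sig.mul_at (fun j => W (e (Sum.inr j)) (e (Sum.inl i))) (h i)]
  rw [h1 α' γ', h1 α γ, h2, ← mul_add, ← mul_add]
  exact congrArg _ (Sig.symm_at (fun j => W (e (Sum.inl i₀)) (e (Sum.inr j)))
    (fun j => W (e (Sum.inr j)) (e (Sum.inl i₀))) (h i₀))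

namespace Sig

theorem two (α γ : Perm (Fin k)) (i : Fin k) :
    sg e α γ (sg e α γ (e (Sum.inl i))) = e (Sum.inl ((γ⁻¹ * α) i)) := by
  rw [sg_inl, sg_inr, Perm.mul_apply]

theorem powl (α γ : Perm (Fin k)) (n : ℕ) (i : Fin k) :
    (sg e α γ ^ (2 * n)) (e (Sum.inl i)) = e (Sum.inl (((γ⁻¹ * α) ^ n) i)) := by
  induction n generalizing i with
  | zero => rw [mul_zero, pow_zero, pow_zero, Perm.one_apply, Perm.one_apply]
  | succ n ih =>
    have h1 : 2 * (n + 1) = 2 * n + 1 + 1 := by ring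
    rw [h1, pow_succ, pow_succ, Perm.mul_apply, Perm.mul_apply, two, ih]
    rfl

theorem scl {α γ : Perm (Fin k)} {i j : Fin k} (h : (γ⁻¹ * α).SameCycle i j) :
    (sg e α γ).SameCycle (e (Sum.inl i)) (e (Sum.inl j)) := by
  obtain ⟨n, hn⟩ := h.exists_nat_pow_eq
  refine ⟨((2 * n : ℕ) : ℤ), ?_⟩
  rw [zpow_natCast, powl, hn]

theorem scr (α γ : Perm (Fin k)) (j : Fin k) :
    (sg e α γ).SameCycle (e (Sum.inl (α⁻¹ j))) (e (Sum.inr j)) := by
  refine ⟨1, ?_⟩
  rw [zpow_one, sg_inl, Cls.ai]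

/-- all points of the range in one cycle -/
theorem full_sc {α γ : Perm (Fin k)} (h : Full (γ⁻¹ * α)) (x y : Fin k ⊕ Fin k) :
    (sg e α γ).SameCycle (e x) (e y) := by
  have h1 : ∀ x : Fin k ⊕ Fin k, ∃ i, (sg e α γ).SameCycle (e (Sum.inl i)) (e x) := by
    rintro (i | j)
    · exact ⟨i, SameCycle.refl _ _⟩
    · exact ⟨_, scr e α γ j⟩
  obtain ⟨i, hi⟩ := h1 x
  obtain ⟨j, hj⟩ := h1 y
  exact hi.symm.trans ((scl e (h i j)).trans hj)

theorem moved (α γ : Perm (Fin k)) (x : Fin k ⊕ Fin k) : sg e α γ (e x) ≠ e x := by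
  rcases x with i | j
  · rw [sg_inl]
    exact rl e _ _
  · rw [sg_inr]
    exact lr e _ _

theorem supp (α γ : Perm (Fin k)) : (sg e α γ).support = univ.map e := by
  ext v
  rw [Perm.mem_support, mem_map]
  constructor
  · intro h
    by_contra hc
    refine h (sg_out e α γ fun ⟨x, hx⟩ => hc ⟨x, mem_univ _, hx⟩)
  · rintro ⟨x, _, rfl⟩
    exact moved e α γ x

theorem full_cyc (hk : 2 ≤ k) {α γ : Perm (Fin k)} (h : Full (γ⁻¹ * α)) :
    (sg e α γ).IsCycle := by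
  refine ⟨e (Sum.inl ⟨0, by omega⟩), moved e α γ _, fun y hy => ?_⟩
  rw [← Perm.mem_support, supp, mem_map] at hy
  obtain ⟨x, _, rfl⟩ := hy
  exact full_sc e h _ _

end Sig

/-- `sg e α γ` is a cycle with the `2 k` points of the range of `e` if `γ⁻¹ * α` is full
(`Equiv.Perm.IsCycle.isConj`) -/
theorem full_isConj (hk : 2 ≤ k) {α γ α' γ' : Perm (Fin k)} (h : Full (γ⁻¹ * α))
    (h' : Full (γ'⁻¹ * α')) : IsConj (sg e α γ) (sg e α' γ') := by
  refine (Sig.full_cyc e hk h).isConj (Sig.full_cyc e hk h') ?_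
  rw [Sig.supp, Sig.supp]

/-- `sg e α γ` maps `inl i` in two steps to `inl ((γ⁻¹ * α) i)` -/
theorem sg_mono {α γ : Perm (Fin k)} (h : Mono (γ⁻¹ * α)) :
    ∀ x y, sg e α γ x ≠ (sg e α γ)⁻¹ x → sg e α γ y ≠ (sg e α γ)⁻¹ y →
      (sg e α γ).SameCycle x y := by
  have h1 : ∀ x, sg e α γ x ≠ (sg e α γ)⁻¹ x →
      ∃ i, (γ⁻¹ * α) i ≠ i ∧ (sg e α γ).SameCycle (e (Sum.inl i)) x := by
    intro x hx
    rw [sg_inv] at hx
    rcases Sig.cases3 e x with ⟨i, rfl⟩ | ⟨j, rfl⟩ | hv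
    · rw [sg_inl, sg_inl] at hx
      refine ⟨i, fun h2 => hx ?_, SameCycle.refl _ _⟩
      rw [Perm.mul_apply, Perm.inv_eq_iff_eq] at h2
      rw [h2]
    · rw [sg_inr, sg_inr] at hx
      refine ⟨α⁻¹ j, fun h2 => hx ?_, Sig.scr e α γ j⟩
      rw [Perm.mul_apply, Cls.ai] at h2
      rw [h2]
    · rw [sg_out e α γ hv, sg_out e γ α hv] at hx
      exact absurd rfl hx
  intro x y hx hy
  obtain ⟨i, hi, hix⟩ := h1 x hx
  obtain ⟨j, hj, hjy⟩ := h1 y hy
  exact hix.symm.trans ((Sig.scl e (h i j hi hj)).trans hjy)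

end

end Pool.Agent.MP_b35d54_lc.Db
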